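import Pool.Agent.Lib.EMU.E.Defs
import Pool.Agent.Lib.EMU.C.GrpL

/-!
# MP_9aab3b_gt, module E.Circ: the bump functions on the circle and the rank one matrices

PROOF. Let `x_a = Re (m * conj (zt ^ a.val))` for `a : ZMod 3`, `‖m‖ = 1`. With `m = exp (i θ)`, `x_a = cos (θ - 2 π a / 3)`; or write `m = p + i q`,
`p^2 + q^2 = 1`, `zt = -1/2 + i √3/2`: `x_0 = p`, `x_1 = -p/2 + (√3/2) q`, `x_2 = -p/2 - (√3/2) q`.
* `cc_prod`: `(1/2 + x_0)(1/2 + x_1)(1/2 + x_2) = (1/2 + p)((1/2 - p/2)^2 - (3/4) q^2) = (1/2 + p)(p^2 - p/2 - 1/2) = (p + 1/2)^2 (p - 1) ≤ 0`, so not all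
  three factors are positive, and if one is `≤ 0` the corresponding `cc` is `0`.
* `NN_pos`: the sum of the `x_a` is `0`, so some `x_a ≥ 0` and `cc a m ≥ 1/2`.
* `cc_rot`: `zt ^ s.val * m * conj (zt ^ a.val) = m * conj (zt ^ (a - s).val)`.
* `exists_phase`: by `cc_prod` some `cc a₀ m = 0`; put `Φ a₀ = 0`, `Φ (a₀ + 1) = cc (a₀+1) m`, `Φ (a₀ + 2) = cc (a₀+2) m * μ`. Check the nine entries
  (`fin_cases`/`decide` on `a, b : ZMod 3`; `μ * conj μ = 1`).
* `MM_rot`: by cases `a = b`, `a = b + 1`, `a = b + 2`, using `cc_rot`; `conj (zt ^ t.val) = zt ^ (-t).val`.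
* `cc_continuous`: `max` and `re` are continuous.
-/

set_option autoImplicit false

open scoped Topology ComplexConjugate

namespace EMU

private theorem circ_norm_zt : ‖zt‖ = 1 :=
  Complex.norm_eq_one_of_pow_eq_one zt_pow_three (by norm_num)

private theorem circ_mul_conj (n : ℕ) : zt ^ n * conj (zt ^ n) = 1 := by
  rw [Complex.mul_conj, Complex.normSq_eq_norm_sq, norm_pow, circ_norm_zt]
  simp

private theorem circ_conj (a : ZMod 3) : conj (zt ^ a.val) = zt ^ (-a).val := by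
  have h1 := zt_pow_add a (-a)
  rw [add_neg_cancel] at h1
  have h2 : zt ^ (0 : ZMod 3).val = 1 := by
    rw [ZMod.val_zero, pow_zero]
  rw [h2] at h1
  have h3 := circ_mul_conj a.val
  have h4 : zt ^ a.val ≠ 0 := pow_ne_zero _ zt_ne_zero
  exact mul_left_cancel₀ h4 (h3.trans h1)

private theorem circ_zt_ne_one : zt ≠ 1 := by
  intro h
  have h1 : zt ^ (1 : ZMod 3).val = 1 := by
    rw [h, one_pow]
  exact absurd (zt_pow_eq_one h1) (by decide)

private theorem circ_sum : 1 + zt + zt ^ 2 = 0 := by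
  have h1 : (zt - 1) * (1 + zt + zt ^ 2) = 0 := by
    have h2 := zt_pow_three
    linear_combination h2
  rcases mul_eq_zero.1 h1 with h2 | h2
  · exact absurd (sub_eq_zero.1 h2) circ_zt_ne_one
  · exact h2

private theorem circ_sq : zt ^ 2 = conj zt := by
  have h1 : zt * conj zt = 1 := by
    have := circ_mul_conj 1
    rwa [pow_one] at this
  have h2 := zt_pow_three
  exact mul_left_cancel₀ zt_ne_zero (by rw [h1, ← h2]; ring)

private theorem circ_re : zt.re = -1 / 2 := by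
  have h1 := congrArg Complex.re circ_sum
  rw [circ_sq] at h1
  simp only [Complex.add_re, Complex.one_re, Complex.conj_re, Complex.zero_re] at h1
  linarith

private theorem circ_im : zt.im * zt.im = 3 / 4 := by
  have h1 : Complex.normSq zt = 1 := by
    rw [Complex.normSq_eq_norm_sq, circ_norm_zt]
    norm_num
  rw [Complex.normSq_apply, circ_re] at h1
  linarith

private theorem circ_sum3 {M : Type*} [AddCommMonoid M] (f : ZMod 3 → M) :
    ∑ a : ZMod 3, f a = f 0 + f 1 + f 2 :=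
  Fin.sum_univ_three f

private theorem circ_x0 (m : ℂ) : (m * conj (zt ^ (0 : ZMod 3).val)).re = m.re := by
  rw [ZMod.val_zero, pow_zero, map_one, mul_one]

private theorem circ_x1 (m : ℂ) :
    (m * conj (zt ^ (1 : ZMod 3).val)).re = -m.re / 2 + m.im * zt.im := by
  have h1 : (1 : ZMod 3).val = 1 := rfl
  rw [h1, pow_one, Complex.mul_re, Complex.conj_re, Complex.conj_im, circ_re]
  ring

private theorem circ_x2 (m : ℂ) :
    (m * conj (zt ^ (2 : ZMod 3).val)).re = -m.re / 2 - m.im * zt.im := by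
  have h1 : (2 : ZMod 3).val = 2 := rfl
  rw [h1, circ_sq, Complex.conj_conj, Complex.mul_re, circ_re]
  ring

theorem cc_nonneg (a : ZMod 3) (m : ℂ) : 0 ≤ cc a m := by
  exact le_max_left _ _

theorem cc_continuous (a : ZMod 3) : Continuous (cc a) := by
  unfold cc
  exact continuous_const.max (continuous_const.add
    (Complex.continuous_re.comp (continuous_id.mul continuous_const)))

theorem cc_rot (a s : ZMod 3) (m : ℂ) : cc a (zt ^ s.val * m) = cc (a - s) m := by
  unfold cc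
  have h1 : zt ^ a.val = zt ^ (a - s).val * zt ^ s.val := by
    rw [← zt_pow_add, sub_add_cancel]
  have h2 : zt ^ s.val * m * conj (zt ^ a.val) = m * conj (zt ^ (a - s).val) := by
    rw [h1, map_mul]
    have h3 := circ_mul_conj s.val
    linear_combination (m * conj (zt ^ (a - s).val)) * h3
  rw [h2]

theorem cc_prod {m : ℂ} (hm : ‖m‖ = 1) : ∃ a : ZMod 3, cc a m = 0 := by
  by_contra hcon
  push Not at hcon
  have h1 : ∀ a : ZMod 3, 0 < 1 / 2 + (m * conj (zt ^ a.val)).re := fun a => by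
    by_contra h2
    exact hcon a (max_eq_left (not_lt.1 h2))
  have e0 := h1 0
  have e1 := h1 1
  have e2 := h1 2
  rw [circ_x0] at e0
  rw [circ_x1] at e1
  rw [circ_x2] at e2
  have h2 : m.re * m.re + m.im * m.im = 1 := by
    have h3 : Complex.normSq m = 1 := by
      rw [Complex.normSq_eq_norm_sq, hm]
      norm_num
    rwa [Complex.normSq_apply] at h3
  have h3 := circ_im
  have h4 : 0 < (1 / 2 + m.re) * ((1 / 2 + (-m.re / 2 + m.im * zt.im)) *
      (1 / 2 + (-m.re / 2 - m.im * zt.im))) := mul_pos e0 (mul_pos e1 e2)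
  have h5 : (1 / 2 + m.re) * ((1 / 2 + (-m.re / 2 + m.im * zt.im)) *
      (1 / 2 + (-m.re / 2 - m.im * zt.im))) = -((1 / 2 + m.re) ^ 2 * (1 - m.re)) := by
    have h6 : (1 / 2 + (-m.re / 2 + m.im * zt.im)) * (1 / 2 + (-m.re / 2 - m.im * zt.im)) =
        (1 - m.re) ^ 2 / 4 - (m.im * m.im) * (zt.im * zt.im) := by ring
    have h7 : m.im * m.im = 1 - m.re * m.re := by linarith
    rw [h6, h3, h7]
    ring
  have h8 : m.re ≤ 1 := by
    nlinarith [mul_self_nonneg m.im]
  have h9 : 0 ≤ (1 / 2 + m.re) ^ 2 * (1 - m.re) :=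
    mul_nonneg (sq_nonneg _) (by linarith)
  rw [h5] at h4
  linarith

theorem NN_pos {m : ℂ} (hm : ‖m‖ = 1) : 0 < NN m := by
  unfold NN
  rw [circ_sum3]
  have h0 := sq_nonneg (cc 0 m)
  have h1 := sq_nonneg (cc 1 m)
  have h2 := sq_nonneg (cc 2 m)
  by_contra hcon
  have hz : ∀ a : ZMod 3, cc a m ^ 2 = 0 → 1 / 2 + (m * conj (zt ^ a.val)).re ≤ 0 := by
    intro a ha
    have h3 : cc a m = 0 := by simpa using ha
    rw [← h3]
    exact le_max_right _ _
  have e0 := hz 0 (by linarith)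
  have e1 := hz 1 (by linarith)
  have e2 := hz 2 (by linarith)
  rw [circ_x0] at e0
  rw [circ_x1] at e1
  rw [circ_x2] at e2
  linarith

theorem NN_rot (s : ZMod 3) (m : ℂ) : NN (zt ^ s.val * m) = NN m := by
  unfold NN
  rw [← Equiv.sum_comp (Equiv.subRight s) (fun a : ZMod 3 => cc a m ^ 2)]
  refine Finset.sum_congr rfl fun a _ => ?_
  rw [cc_rot]
  rfl

theorem exists_phase {m μ : ℂ} (hm : ‖m‖ = 1) (hμ : ‖μ‖ = 1) :
    ∃ Φ : ZMod 3 → ℂ, (∀ a b, MM m μ a b = Φ a * conj (Φ b)) ∧ ∀ a, ‖Φ a‖ = cc a m := by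
  obtain ⟨a₀, h0⟩ := cc_prod hm
  have hd : ∀ a₀ a : ZMod 3, a = a₀ ∨ a = a₀ + 1 ∨ a = a₀ + 2 := by decide
  have n1 : a₀ + 1 ≠ a₀ := (by decide : ∀ x : ZMod 3, x + 1 ≠ x) a₀
  have n2 : a₀ + 2 ≠ a₀ := (by decide : ∀ x : ZMod 3, x + 2 ≠ x) a₀
  have n3 : a₀ + 2 ≠ a₀ + 1 := (by decide : ∀ x : ZMod 3, x + 2 ≠ x + 1) a₀
  have n4 : a₀ + 1 ≠ a₀ + 2 + 1 := (by decide : ∀ x : ZMod 3, x + 1 ≠ x + 2 + 1) a₀
  have n5 : a₀ + 2 = a₀ + 1 + 1 := (by decide : ∀ x : ZMod 3, x + 2 = x + 1 + 1) a₀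
  have hμ' : μ * conj μ = 1 := by
    rw [Complex.mul_conj, Complex.normSq_eq_norm_sq, hμ]
    simp
  refine ⟨fun a => if a = a₀ then 0 else if a = a₀ + 1 then (cc a m : ℂ) else cc a m * μ,
    fun a b => ?_, fun a => ?_⟩
  · unfold MM
    rcases hd a₀ a with rfl | rfl | rfl
    · simp only [h0, Complex.ofReal_zero, zero_mul, ne_eq, OfNat.ofNat_ne_zero,
        not_false_eq_true, zero_pow, ite_self]
    · rcases hd a₀ b with rfl | rfl | rfl
      · simp only [h0, if_true, Complex.ofReal_zero, zero_mul, mul_zero, map_zero, if_neg n1]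
      · simp only [if_true, if_neg n1, Complex.conj_ofReal]
        ring
      · simp only [if_true, if_neg n1, if_neg n2, if_neg n3, if_neg n3.symm, if_neg n4,
          Complex.conj_ofReal, map_mul]
        ring
    · rcases hd a₀ b with rfl | rfl | rfl
      · simp only [h0, if_true, Complex.ofReal_zero, zero_mul, mul_zero, map_zero, if_neg n2,
          if_neg n3]
      · simp only [if_true, if_neg n1, if_neg n2, if_neg n3, if_pos n5, Complex.conj_ofReal]
        ring
      · simp only [if_true, if_neg n2, if_neg n3, Complex.conj_ofReal, map_mul]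
        linear_combination (-(cc (a₀ + 2) m : ℂ) ^ 2) * hμ'
  · rcases hd a₀ a with rfl | rfl | rfl
    · simp only [if_true, norm_zero, h0]
    · simp only [if_true, if_neg n1, Complex.norm_real, Real.norm_of_nonneg (cc_nonneg _ _)]
    · simp only [if_neg n2, if_neg n3, norm_mul, hμ, mul_one, Complex.norm_real,
        Real.norm_of_nonneg (cc_nonneg _ _)]

/-- behaviour of the matrix under the group -/
theorem MM_rot (m μ : ℂ) (s t a b : ZMod 3) :
    MM (zt ^ s.val * m) (zt ^ t.val * μ) (a + s) (b + s) =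
      zt ^ (t * a).val * conj (zt ^ (t * b).val) * MM m μ a b := by
  unfold MM
  rw [cc_rot, cc_rot, add_sub_cancel_right, add_sub_cancel_right]
  have hd : ∀ a b : ZMod 3, a = b ∨ a = b + 1 ∨ a = b + 2 := by decide
  have hts : ∀ x y : ZMod 3, zt ^ x.val * conj (zt ^ y.val) = zt ^ (x - y).val := by
    intro x y
    rw [circ_conj, ← zt_pow_add, sub_eq_add_neg]
  rw [hts, ← mul_sub]
  rcases hd a b with rfl | rfl | rfl
  · rw [if_pos rfl, if_pos rfl, sub_self, mul_zero, ZMod.val_zero, pow_zero, one_mul]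
  · have n1 : b + 1 ≠ b := (by decide : ∀ x : ZMod 3, x + 1 ≠ x) b
    have n2 : b + 1 + s ≠ b + s := fun h => n1 (add_right_cancel h)
    have n3 : b + 1 + s = b + s + 1 := by ring
    rw [if_neg n2, if_pos n3, if_neg n1, if_pos rfl]
    have h1 : b + 1 - b = 1 := by ring
    rw [h1, mul_one]
    ring
  · have n1 : b + 2 ≠ b := (by decide : ∀ x : ZMod 3, x + 2 ≠ x) b
    have n2 : b + 2 + s ≠ b + s := fun h => n1 (add_right_cancel h)
    have n3 : b + 2 ≠ b + 1 := (by decide : ∀ x : ZMod 3, x + 2 ≠ x + 1) b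
    have n4 : b + 2 + s ≠ b + s + 1 := fun h => n3 (add_right_cancel (h.trans (by ring)))
    rw [if_neg n2, if_neg n4, if_neg n1, if_neg n3]
    have h1 : t * (b + 2 - b) = -t :=
      (by decide : ∀ x y : ZMod 3, x * (y + 2 - y) = -x) t b
    rw [h1, map_mul, circ_conj]
    ring

end EMU
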