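import Pool.Agent.Lib.EMU.A.PiMU
import Pool.Agent.Lib.EMU.C.Grp

/-!
# MP_9aab3b_gt, part E: the explicit element (definitions)

`I`, `J` are finite sets of copies, `i₀ : I`, `u : Fin 3 → J` injective. `V = Rg Gp I`, ambient space `V ⊕ U = Rg Gp (I ⊕ J)`.
`chE i g = ζ^(g.q i)`, `bV i₀ i ∈ V` a unit vector on which `g` acts by `chE i g`; `zz i₀ i v = ⟪bV i₀ i, v⟫`.
`eU u i` a unit vector of the copy `u i` fixed by `Gp`. `EE u i a` (`a : ZMod 3`) the function `g ↦ ζ^(-g.n i)` if `g.q (i+2) = a`, `0` otherwise, in the copy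
`u i`; the centre acts on it by `ζ^(n i)`. `cc a m = max 0 (1/2 + Re (m ζ^(-a)))`.
`MM m μ a b` is the rank one matrix `Φ_a conj Φ_b` with `|Φ_a| = cc a m` and relative phase `μ` between `Φ_a` and `Φ_{a+1}`.
`PLn u i m μ` is the orthogonal projection onto the line spanned by `∑ Φ_a EE u i a`.
`elt i₀ u (v, t) = (U, w)`, `U = V_0^⊥ ⊕ ⟨e_i⟩ ⊕ L_i`, `w = (component of v in V_0^⊥) + ∑ (log |z_i| + √-1 t_i) e_i` if all `z_i ≠ 0`.
-/

set_option autoImplicit false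

open scoped Topology OnePoint ComplexConjugate

namespace EMU

noncomputable section

/-- the character `g ↦ ζ^(g.q i)` -/
def chE (i : Fin 3) (g : Gp) : ℂ := zt ^ (g.q i).val

variable {I J : Type} [Fintype I] [Fintype J]

open Classical in
/-- unit vector of type `chE i` in the copy `i₀` -/
def bV (i₀ : I) (i : Fin 3) : Rg Gp I :=
  WithLp.toLp 2 fun p => if p.1 = i₀ then conj (chE i p.2) / 27 else 0

/-- coordinates -/
def zz (i₀ : I) (i : Fin 3) (v : Rg Gp I) : ℂ := inner ℂ (bV i₀ i) v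

/-- the same vector in the ambient space -/
def bA (J : Type) [Fintype J] (i₀ : I) (i : Fin 3) : Rg Gp (I ⊕ J) := ext Sum.inl (bV i₀ i)

open Classical in
/-- fixed unit vector in the copy `u i` -/
def eU (I : Type) [Fintype I] (u : Fin 3 → J) (i : Fin 3) : Rg Gp (I ⊕ J) :=
  WithLp.toLp 2 fun p => if p.1 = Sum.inr (u i) then 1 / 27 else 0

open Classical in
/-- the basis of the Heisenberg representation -/
def EE (I : Type) [Fintype I] (u : Fin 3 → J) (i : Fin 3) (a : ZMod 3) : Rg Gp (I ⊕ J) :=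
  WithLp.toLp 2 fun p => if p.1 = Sum.inr (u i) ∧ p.2.q (i + 2) = a then
    conj (zt ^ (p.2.n i).val) else 0

/-- bump functions on the circle -/
def cc (a : ZMod 3) (m : ℂ) : ℝ := max 0 (1 / 2 + (m * conj (zt ^ a.val)).re)

/-- sum of squares -/
def NN (m : ℂ) : ℝ := ∑ a : ZMod 3, cc a m ^ 2

/-- rank one matrix -/
def MM (m μ : ℂ) (a b : ZMod 3) : ℂ :=
  if a = b then (cc a m : ℂ) ^ 2
  else if a = b + 1 then (cc a m : ℂ) * cc b m * μ
  else (cc a m : ℂ) * cc b m * conj μ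

/-- `v ↦ ⟪b, v⟫ • a` -/
def rk {E : Type} [NormedAddCommGroup E] [InnerProductSpace ℂ E] (a b : E) : E →L[ℂ] E :=
  (innerSL ℂ b).smulRight a

/-- projection onto the line `L_i` -/
def PLn (I : Type) [Fintype I] (u : Fin 3 → J) (i : Fin 3) (m μ : ℂ) :
    Rg Gp (I ⊕ J) →L[ℂ] Rg Gp (I ⊕ J) :=
  ∑ a : ZMod 3, ∑ b : ZMod 3, (MM m μ a b / (243 * NN m)) • rk (EE I u i a) (EE I u i b)

/-- the phase of a complex number -/
def ph (z : ℂ) : ℂ := z / ‖z‖

/-- the projection onto `U` -/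
def Pm (i₀ : I) (u : Fin 3 → J) (z : Fin 3 → ℂ) : Rg Gp (I ⊕ J) →L[ℂ] Rg Gp (I ⊕ J) :=
  blk (Set.range Sum.inl) - ∑ i, rk (bA J i₀ i) (bA J i₀ i) + ∑ i, rk (eU I u i) (eU I u i)
    + ∑ i, PLn I u i (ph (z (i + 2))) (ph (z (i + 1)))

/-- the vector -/
def um (i₀ : I) (u : Fin 3 → J) (v : Rg Gp I) (t : EuclideanSpace ℝ (Fin 3)) : Rg Gp (I ⊕ J) :=
  ext Sum.inl v - ∑ i, zz i₀ i v • bA J i₀ i
    + ∑ i, ((Real.log ‖zz i₀ i v‖ : ℂ) + Complex.I * (t i : ℂ)) • eU I u i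

end

end EMU
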