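import Pool.Agent.Lib.EMU.E.PTaut

/-!
# MP_9aab3b_gt, part E: the explicit map (definition)
-/

set_option autoImplicit false

open scoped Topology OnePoint ComplexConjugate

namespace EMU

noncomputable section

variable {I J : Type} [Fintype I] [Fintype J]

open Classical in
/-- the explicit map `S^{V ⊕ ℝ^3} → Thom (V ⊕ U)`, on the finite points -/
def eltP (i₀ : I) {u : Fin 3 → J} (hu : Function.Injective u) {m : ℕ}
    (hm : m = Fintype.card I * 729 + 3) (p : Rg Gp I × EuclideanSpace ℝ (Fin 3)) :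
    Thom (Rg Gp (I ⊕ J)) m :=
  if hz : ∀ i, zz i₀ i p.1 ≠ 0 then
    OnePoint.some (X := Taut (Rg Gp (I ⊕ J)) m)
      ⟨(Pm i₀ u (fun i => zz i₀ i p.1), um i₀ u p.1 p.2), isTaut_elt i₀ hu p.1 p.2 hz hm⟩
  else ∞

/-- the explicit map `S^{V ⊕ ℝ^3} → Thom (V ⊕ U)` -/
def elt (i₀ : I) {u : Fin 3 → J} (hu : Function.Injective u) {m : ℕ}
    (hm : m = Fintype.card I * 729 + 3) (x : OnePoint (Rg Gp I × EuclideanSpace ℝ (Fin 3))) :
    Thom (Rg Gp (I ⊕ J)) m :=
  x.elim ∞ (eltP i₀ hu hm)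

/-- the inclusion of the three special copies -/
def u3 (j : ℕ) : Fin 3 → Fin (j + 3) := Fin.castLE (by omega)

theorem u3_inj (j : ℕ) : Function.Injective (u3 j) := Fin.castLE_injective _

theorem dim3 (k : ℕ) : (k + 1) * Fintype.card Gp + 3 = Fintype.card (Fin (k + 1)) * 729 + 3 := by
  rw [Gp.card_eq, Fintype.card_fin]

end

end EMU
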