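import Pool.Agent.Lib.EMU.E.Elt
import Pool.Agent.Lib.EMU.A.ThomTop

/-!
# MP_9aab3b_gt, module E.EltCont: the explicit map is continuous

PROOF. At a point `x = (v, t)` with all `z_i ≠ 0` (an open condition) `elt` is near `x` the composition of the open embedding of `Taut` and a continuous map
(`Pm` depends continuously on `z ≠ 0`: `ph` is continuous at `z ≠ 0`, `cc_continuous`, `NN (ph z) > 0` (`NN_pos`, `‖ph z‖ = 1`); `um`: `Real.log ‖z‖` is
continuous for `z ≠ 0`).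
At the other points (value `∞`) use `continuousAt_thom_infty`: by `norm_um`, for a point `(v, t)` with all `z_i ≠ 0`,
`‖um‖^2 = (‖v‖^2 - ∑ |z_i|^2) + ∑ (log^2 |z_i| + t_i^2)` and the first bracket is `≥ 0` (Bessel: `Orthonormal.sum_inner_products_le` or `inner_bV`).
* near a finite point `(v₀, t₀)` with some `z_i (v₀) = 0`: `log |z_i (v)| → -∞` along the points with `z_i (v) ≠ 0` (`Real.tendsto_log_nhdsNE_zero`).
* near `x = ∞`: given `R` the set of the `(v, t)` with all `z_i ≠ 0` and `‖um‖ ≤ R` is bounded: `‖t‖ ≤ R`, `|log |z_i|| ≤ R` so `|z_i| ≤ exp R`, and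
  `‖v‖^2 ≤ R^2 + ∑ |z_i|^2 ≤ R^2 + 3 exp (2R)`. Neighbourhoods of `∞` in `OnePoint` of a proper space: complements of closed balls
  (`OnePoint.isOpen_compl_image_coe`, `isCompact_closedBall`).
-/

set_option autoImplicit false

open scoped Topology OnePoint ComplexConjugate

namespace EMU

variable {I J : Type} [Fintype I] [Fintype J]

private theorem ec_zz_cont (i₀ : I) (i : Fin 3) : Continuous (fun v : Rg Gp I => zz i₀ i v) :=
  continuous_const.inner continuous_id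

private theorem ec_norm_ph {z : ℂ} (hz : z ≠ 0) : ‖ph z‖ = 1 := by
  rw [ph, norm_div, Complex.norm_real, norm_norm]
  exact div_self (norm_ne_zero_iff.mpr hz)

private theorem ec_bessel (i₀ : I) (v : Rg Gp I) : ∑ i, ‖zz i₀ i v‖ ^ 2 ≤ ‖v‖ ^ 2 := by
  have h : Orthonormal ℂ (fun i : Fin 3 => bV i₀ i) := by
    rw [orthonormal_iff_ite]
    intro i j
    exact inner_bV i₀ i j
  exact h.sum_inner_products_le v

private theorem ec_log_le (i₀ : I) {u : Fin 3 → J} (hu : Function.Injective u) (v : Rg Gp I)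
    (t : EuclideanSpace ℝ (Fin 3)) (i : Fin 3) :
    (Real.log ‖zz i₀ i v‖) ^ 2 ≤ ‖um i₀ u v t‖ ^ 2 := by
  rw [norm_um i₀ hu v t]
  have h1 := ec_bessel i₀ v
  have h2 : (Real.log ‖zz i₀ i v‖) ^ 2 + (t i) ^ 2 ≤
      ∑ i, ((Real.log ‖zz i₀ i v‖) ^ 2 + (t i) ^ 2) :=
    Finset.single_le_sum (f := fun i => (Real.log ‖zz i₀ i v‖) ^ 2 + (t i) ^ 2)
      (fun j _ => by positivity) (Finset.mem_univ i)
  have h3 : 0 ≤ (t i) ^ 2 := sq_nonneg _
  linarith

private theorem ec_t_le (i₀ : I) {u : Fin 3 → J} (hu : Function.Injective u) (v : Rg Gp I)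
    (t : EuclideanSpace ℝ (Fin 3)) : ‖t‖ ^ 2 ≤ ‖um i₀ u v t‖ ^ 2 := by
  rw [norm_um i₀ hu v t, EuclideanSpace.norm_sq_eq]
  have h1 := ec_bessel i₀ v
  have h2 : ∑ i, ‖t i‖ ^ 2 ≤ ∑ i, ((Real.log ‖zz i₀ i v‖) ^ 2 + (t i) ^ 2) := by
    refine Finset.sum_le_sum fun i _ => ?_
    rw [Real.norm_eq_abs, sq_abs]
    have h3 : 0 ≤ (Real.log ‖zz i₀ i v‖) ^ 2 := sq_nonneg _
    linarith
  linarith

private theorem ec_v_le (i₀ : I) {u : Fin 3 → J} (hu : Function.Injective u) (v : Rg Gp I)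
    (t : EuclideanSpace ℝ (Fin 3)) : ‖v‖ ^ 2 ≤ ‖um i₀ u v t‖ ^ 2 + ∑ i, ‖zz i₀ i v‖ ^ 2 := by
  rw [norm_um i₀ hu v t]
  have h2 : 0 ≤ ∑ i, ((Real.log ‖zz i₀ i v‖) ^ 2 + (t i) ^ 2) :=
    Finset.sum_nonneg fun i _ => by positivity
  linarith

private theorem ec_bound (i₀ : I) {u : Fin 3 → J} (hu : Function.Injective u) (v : Rg Gp I)
    (t : EuclideanSpace ℝ (Fin 3)) (hz : ∀ i, zz i₀ i v ≠ 0) {R : ℝ} (h : ‖um i₀ u v t‖ ≤ R) :
    ‖(v, t)‖ ≤ R + 3 * Real.exp R := by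
  have hR : 0 ≤ R := (norm_nonneg _).trans h
  have hsq : ‖um i₀ u v t‖ ^ 2 ≤ R ^ 2 := pow_le_pow_left₀ (norm_nonneg _) h 2
  have hE : 0 < Real.exp R := Real.exp_pos R
  have hzb : ∀ i, ‖zz i₀ i v‖ ≤ Real.exp R := by
    intro i
    have h1 : (Real.log ‖zz i₀ i v‖) ^ 2 ≤ R ^ 2 := (ec_log_le i₀ hu v t i).trans hsq
    have h2 : Real.log ‖zz i₀ i v‖ ≤ R := by
      have h3 := abs_le_of_sq_le_sq' h1 hR
      exact h3.2
    have h4 : 0 < ‖zz i₀ i v‖ := norm_pos_iff.mpr (hz i)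
    rw [← Real.exp_log h4]
    exact Real.exp_le_exp.mpr h2
  have ht : ‖t‖ ≤ R := by
    have h1 : ‖t‖ ^ 2 ≤ R ^ 2 := (ec_t_le i₀ hu v t).trans hsq
    exact (abs_le_of_sq_le_sq' h1 hR).2
  have hv : ‖v‖ ≤ R + 3 * Real.exp R := by
    have h1 := ec_v_le i₀ hu v t
    have h2 : ∑ i, ‖zz i₀ i v‖ ^ 2 ≤ 3 * Real.exp R ^ 2 := by
      have h3 : ∑ i : Fin 3, ‖zz i₀ i v‖ ^ 2 ≤ ∑ _i : Fin 3, Real.exp R ^ 2 :=
        Finset.sum_le_sum fun i _ => pow_le_pow_left₀ (norm_nonneg _) (hzb i) 2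
      simpa using h3
    have h4 : ‖v‖ ^ 2 ≤ (R + 3 * Real.exp R) ^ 2 := by
      nlinarith [mul_nonneg hR hE.le, sq_nonneg (Real.exp R)]
    exact (abs_le_of_sq_le_sq' h4 (by positivity)).2
  rw [Prod.norm_mk]
  exact max_le hv (by linarith)

private theorem ec_val (i₀ : I) {u : Fin 3 → J} (hu : Function.Injective u) {m : ℕ}
    (hm : m = Fintype.card I * 729 + 3) (p : Rg Gp I × EuclideanSpace ℝ (Fin 3))
    (t : Taut (Rg Gp (I ⊕ J)) m) (h : eltP i₀ hu hm p = (t : Thom (Rg Gp (I ⊕ J)) m)) :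
    (∀ i, zz i₀ i p.1 ≠ 0) ∧ t.1.2 = um i₀ u p.1 p.2 := by
  by_cases hz : ∀ i, zz i₀ i p.1 ≠ 0
  · refine ⟨hz, ?_⟩
    rw [eltP, dif_pos hz] at h
    have h1 := OnePoint.coe_injective h
    rw [← h1]
  · rw [eltP, dif_neg hz] at h
    exact absurd h.symm (OnePoint.coe_ne_infty t)

private theorem ec_MM_cont {X : Type*} [TopologicalSpace X] {f g : X → ℂ} (hf : Continuous f)
    (hg : Continuous g) (a b : ZMod 3) : Continuous fun x => MM (f x) (g x) a b := by
  have h : ∀ c : ZMod 3, Continuous fun x => ((cc c (f x) : ℝ) : ℂ) := fun c =>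
    Complex.continuous_ofReal.comp ((cc_continuous c).comp hf)
  unfold MM
  split_ifs
  · exact (h a).pow 2
  · exact ((h a).mul (h b)).mul hg
  · exact ((h a).mul (h b)).mul (Complex.continuous_conj.comp hg)

private theorem ec_NN_cont {X : Type*} [TopologicalSpace X] {f : X → ℂ} (hf : Continuous f) :
    Continuous fun x => NN (f x) := by
  unfold NN
  exact continuous_finsetSum _ fun a _ => ((cc_continuous a).comp hf).pow 2

private theorem ec_PLn_cont {X : Type*} [TopologicalSpace X] {f g : X → ℂ} (hf : Continuous f)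
    (hg : Continuous g) (hf1 : ∀ x, ‖f x‖ = 1) (u : Fin 3 → J) (i : Fin 3) :
    Continuous fun x => PLn I u i (f x) (g x) := by
  unfold PLn
  refine continuous_finsetSum _ fun a _ => continuous_finsetSum _ fun b _ => ?_
  have hq : Continuous fun x => MM (f x) (g x) a b / (243 * (NN (f x) : ℂ)) := by
    refine (ec_MM_cont hf hg a b).div ?_ ?_
    · exact continuous_const.mul (Complex.continuous_ofReal.comp (ec_NN_cont hf))
    · intro x
      have h1 := NN_pos (hf1 x)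
      have h2 : (NN (f x) : ℂ) ≠ 0 := by exact_mod_cast h1.ne'
      exact mul_ne_zero (by norm_num) h2
  exact hq.smul (continuous_const (y := rk (EE I u i a) (EE I u i b)))

private theorem ec_cont_fin (i₀ : I) {u : Fin 3 → J} (hu : Function.Injective u) {m : ℕ}
    (hm : m = Fintype.card I * 729 + 3) :
    ContinuousOn (eltP i₀ hu hm) {p : Rg Gp I × EuclideanSpace ℝ (Fin 3) |
      ∀ i, zz i₀ i p.1 ≠ 0} := by
  rw [continuousOn_iff_continuous_domRestrict]
  have hzc : ∀ i, Continuous fun x : {p : Rg Gp I × EuclideanSpace ℝ (Fin 3) |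
      ∀ i, zz i₀ i p.1 ≠ 0} => zz i₀ i x.1.1 := fun i =>
    (ec_zz_cont i₀ i).comp (continuous_fst.comp continuous_subtype_val)
  have hph : ∀ i, Continuous fun x : {p : Rg Gp I × EuclideanSpace ℝ (Fin 3) |
      ∀ i, zz i₀ i p.1 ≠ 0} => ph (zz i₀ i x.1.1) := by
    intro i
    unfold ph
    refine (hzc i).div (Complex.continuous_ofReal.comp (hzc i).norm) ?_
    intro x
    have h1 : ‖zz i₀ i x.1.1‖ ≠ 0 := norm_ne_zero_iff.mpr (x.2 i)
    exact_mod_cast h1
  have hP : Continuous fun x : {p : Rg Gp I × EuclideanSpace ℝ (Fin 3) |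
      ∀ i, zz i₀ i p.1 ≠ 0} => Pm (J := J) i₀ u (fun i => zz i₀ i x.1.1) := by
    unfold Pm
    refine Continuous.add continuous_const ?_
    exact continuous_finsetSum _ fun i _ => ec_PLn_cont (hph (i + 2)) (hph (i + 1))
      (fun x => ec_norm_ph (x.2 (i + 2))) u i
  have hu' : Continuous fun x : {p : Rg Gp I × EuclideanSpace ℝ (Fin 3) |
      ∀ i, zz i₀ i p.1 ≠ 0} => um i₀ u x.1.1 x.1.2 := by
    unfold um
    refine Continuous.add (Continuous.sub ?_ ?_) ?_
    · exact (ext (G := Gp) (Sum.inl : I → I ⊕ J)).continuous.comp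
        (continuous_fst.comp continuous_subtype_val)
    · exact continuous_finsetSum _ fun i _ => (hzc i).smul continuous_const
    · refine continuous_finsetSum _ fun i _ => ?_
      have hq : Continuous fun x : {p : Rg Gp I × EuclideanSpace ℝ (Fin 3) |
          ∀ i, zz i₀ i p.1 ≠ 0} =>
          ((Real.log ‖zz i₀ i x.1.1‖ : ℝ) : ℂ) + Complex.I * ((x.1.2 i : ℝ) : ℂ) := by
        refine Continuous.add ?_ ?_
        · refine Complex.continuous_ofReal.comp ?_
          exact Continuous.log (hzc i).norm fun x => norm_ne_zero_iff.mpr (x.2 i)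
        · refine continuous_const.mul (Complex.continuous_ofReal.comp ?_)
          have h1 : Continuous fun t : EuclideanSpace ℝ (Fin 3) => t i := by fun_prop
          exact h1.comp (continuous_snd.comp continuous_subtype_val)
      exact hq.smul (continuous_const (y := eU I u i))
  have hT : Continuous fun x : {p : Rg Gp I × EuclideanSpace ℝ (Fin 3) |
      ∀ i, zz i₀ i p.1 ≠ 0} =>
      (⟨(Pm i₀ u (fun i => zz i₀ i x.1.1), um i₀ u x.1.1 x.1.2),
        isTaut_elt i₀ hu x.1.1 x.1.2 x.2 hm⟩ : Taut (Rg Gp (I ⊕ J)) m) :=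
    Continuous.subtype_mk (hP.prodMk hu') _
  have hfin := OnePoint.continuous_coe.comp hT
  refine hfin.congr fun x => ?_
  have h1 : eltP i₀ hu hm x.1 = OnePoint.some (X := Taut (Rg Gp (I ⊕ J)) m)
      ⟨(Pm i₀ u (fun i => zz i₀ i x.1.1), um i₀ u x.1.1 x.1.2),
        isTaut_elt i₀ hu x.1.1 x.1.2 x.2 hm⟩ := dif_pos x.2
  exact h1.symm

private theorem ec_open (i₀ : I) : IsOpen {p : Rg Gp I × EuclideanSpace ℝ (Fin 3) |
      ∀ i, zz i₀ i p.1 ≠ 0} := by
  have h : {p : Rg Gp I × EuclideanSpace ℝ (Fin 3) | ∀ i, zz i₀ i p.1 ≠ 0} =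
      ⋂ i, {p : Rg Gp I × EuclideanSpace ℝ (Fin 3) | zz i₀ i p.1 ≠ 0} := by
    ext p
    simp
  rw [h]
  exact isOpen_iInter_of_finite fun i =>
    isOpen_ne_fun ((ec_zz_cont i₀ i).comp continuous_fst) continuous_const

private theorem ec_cont_coe (i₀ : I) {u : Fin 3 → J} (hu : Function.Injective u) {m : ℕ}
    (hm : m = Fintype.card I * 729 + 3) (p : Rg Gp I × EuclideanSpace ℝ (Fin 3)) :
    ContinuousAt (eltP i₀ hu hm) p := by
  by_cases hz : ∀ i, zz i₀ i p.1 ≠ 0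
  · exact (ec_cont_fin i₀ hu hm).continuousAt ((ec_open i₀).mem_nhds hz)
  · have hinf : eltP i₀ hu hm p = ∞ := by rw [eltP, dif_neg hz]
    refine continuousAt_thom_infty hinf fun R => ?_
    obtain ⟨i, hi⟩ := not_forall.mp hz
    rw [not_not] at hi
    have hc : ContinuousAt (fun q : Rg Gp I × EuclideanSpace ℝ (Fin 3) => ‖zz i₀ i q.1‖) p :=
      ((ec_zz_cont i₀ i).comp continuous_fst).norm.continuousAt
    have hlt : ‖zz i₀ i p.1‖ < Real.exp (-max R 0) := by
      rw [hi, norm_zero]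
      exact Real.exp_pos _
    filter_upwards [hc.eventually_lt_const hlt] with q hq t ht
    obtain ⟨hqz, htu⟩ := ec_val i₀ hu hm q t ht
    rw [htu]
    have h1 : 0 < ‖zz i₀ i q.1‖ := norm_pos_iff.mpr (hqz i)
    have h2 : Real.log ‖zz i₀ i q.1‖ < -max R 0 := by
      rw [Real.log_lt_iff_lt_exp h1]
      exact hq
    have h3 : 0 ≤ max R 0 := le_max_right _ _
    have h4 : (max R 0) ^ 2 < (Real.log ‖zz i₀ i q.1‖) ^ 2 := by nlinarith
    have h5 := ec_log_le i₀ hu q.1 q.2 i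
    have h6 : max R 0 < ‖um i₀ u q.1 q.2‖ := by
      have h7 : (max R 0) ^ 2 < ‖um i₀ u q.1 q.2‖ ^ 2 := lt_of_lt_of_le h4 h5
      exact lt_of_pow_lt_pow_left₀ 2 (norm_nonneg _) h7
    exact (le_max_left _ _).trans_lt h6

theorem continuous_elt (i₀ : I) {u : Fin 3 → J} (hu : Function.Injective u) {m : ℕ}
    (hm : m = Fintype.card I * 729 + 3) : Continuous (elt i₀ hu hm) := by
  rw [continuous_iff_continuousAt]
  intro x
  induction x using OnePoint.rec with
  | infty =>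
    have hinf : elt i₀ hu hm ∞ = ∞ := rfl
    refine continuousAt_thom_infty hinf fun R => ?_
    rw [OnePoint.hasBasis_nhds_infty.eventually_iff]
    refine ⟨Metric.closedBall 0 (R + 3 * Real.exp R), ⟨Metric.isClosed_closedBall,
      isCompact_closedBall _ _⟩, ?_⟩
    intro z hz t ht
    rcases hz with ⟨p, hp, rfl⟩ | hz
    · obtain ⟨hqz, htu⟩ := ec_val i₀ hu hm p t ht
      rw [htu]
      by_contra hcon
      apply hp
      rw [mem_closedBall_zero_iff]
      exact ec_bound i₀ hu p.1 p.2 hqz (not_lt.mp hcon)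
    · rw [Set.mem_singleton_iff.mp hz] at ht
      exact absurd (hinf.symm.trans ht).symm (OnePoint.coe_ne_infty t)
  | coe p =>
    rw [OnePoint.continuousAt_coe]
    exact ec_cont_coe i₀ hu hm p

end EMU
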