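import Pool.Agent.Lib.EMU.E.Elt

/-!
# MP_9aab3b_gt, module E.EltEqui: equivariance, suspension and inclusion of the explicit map

PROOF. `Pm_act`: `act g ∘ rk a b ∘ act g⁻¹ = rk (act g a) (act g b)` (`act g` is unitary: `⟪b, act g⁻¹ x⟫ = ⟪act g b, x⟫`); `act g` commutes with `blk`;
`act_bA`: `rk (c • b) (c • b) = |c|^2 rk b b`; `act_eU`; `act_EE` and `MM_rot` (with `s = g.q (i+2)`, `t = g.q (i+1)`; the factors `ζ^(g.n i)` cancel), `NN_rot`,
`ph (chE i g * z) = chE i g * ph z`, `chE i g = zt ^ (g.q i).val`; reindex the sums over `ZMod 3` by `a ↦ a + s`.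
`um_act`: `act g (ext inl v) = ext inl (act g v)` (see `A/Alg.lean: act_ext`, or direct), `zz_act`, `act_bA`: `(chE z) • bA = z • act g bA`, `act_eU`,
`‖chE i g * z‖ = ‖z‖`.
`elt_equi`: cases on `x`, on the condition `z_i ≠ 0` (invariant).
`elt_susp`, `elt_incl`: by cases. For `elt_susp`: `x = (v', t)`, `v = res castSucc v'`; `zz 0 i v' = zz 0 i v` (the copy `0`; `Fin.castSucc 0 = 0`); the projection:
`ext (upS) ∘ Pm ∘ res (upS) + blk {inl last} = Pm'`: `ext φ ∘ rk a b ∘ res φ = rk (ext φ a) (ext φ b)` (adjunction `⟪b, res φ x⟫ = ⟪ext φ b, x⟫`), `ext (upS) (bA i) = bA i`,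
`ext (upS) (eU i) = eU i` (`upS` is the identity on the second summand), `ext (upS) (EE i a) = EE i a`, and `ext ∘ blk (range inl) ∘ res + blk {inl last} = blk (range inl)`
(split `Fin (k+1)` by `Fin.lastCases`). The vector: `ext (upS) (ext inl v) + blk {inl last} (ext inl v') = ext inl v'`. Similarly for `elt_incl` with
`upI`, `u3 (j + 1) i = Fin.castSucc (u3 j i)`, the empty block.
Prove everything by evaluating at `p = (index, h)`.
-/

set_option autoImplicit false

open scoped Topology OnePoint ComplexConjugate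

namespace EMU

variable {I J : Type} [Fintype I] [Fintype J]

private theorem rk_apply {E : Type} [NormedAddCommGroup E] [InnerProductSpace ℂ E] (a b v : E) :
    rk a b v = inner ℂ b v • a := rfl

/-- `T ↦ A ∘ T ∘ B` -/
private noncomputable def cj {E E' : Type} [NormedAddCommGroup E] [InnerProductSpace ℂ E]
    [NormedAddCommGroup E'] [InnerProductSpace ℂ E'] (A : E →L[ℂ] E') (B : E' →L[ℂ] E) :
    (E →L[ℂ] E) →ₗ[ℂ] (E' →L[ℂ] E') where
  toFun T := A ∘L T ∘L B
  map_add' S T := by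
    refine ContinuousLinearMap.ext fun v => ?_
    simp
  map_smul' c T := by
    refine ContinuousLinearMap.ext fun v => ?_
    simp

private theorem cj_rk {E E' : Type} [NormedAddCommGroup E] [InnerProductSpace ℂ E]
    [NormedAddCommGroup E'] [InnerProductSpace ℂ E'] {A : E →L[ℂ] E'} {B : E' →L[ℂ] E}
    (hAB : ∀ x v, inner ℂ x (B v) = inner ℂ (A x) v) (a b : E) :
    cj A B (rk a b) = rk (A a) (A b) := by
  refine ContinuousLinearMap.ext fun v => ?_
  show A (inner ℂ b (B v) • a) = inner ℂ (A b) v • A a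
  rw [map_smul, hAB]

private theorem rk_smul {E : Type} [NormedAddCommGroup E] [InnerProductSpace ℂ E] (c d : ℂ)
    (a b : E) : rk (c • a) (d • b) = (c * conj d) • rk a b := by
  refine ContinuousLinearMap.ext fun v => ?_
  show inner ℂ (d • b) v • (c • a) = (c * conj d) • (inner ℂ b v • a)
  rw [inner_smul_left, smul_smul, smul_smul]
  congr 1
  ring

private theorem norm_ztp (s : ZMod 3) : ‖zt ^ s.val‖ = 1 := by
  have h : ‖zt‖ = 1 := Complex.norm_eq_one_of_pow_eq_one zt_pow_three (by norm_num)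
  rw [norm_pow, h, one_pow]

private theorem mul_conj_ztp (s : ZMod 3) : zt ^ s.val * conj (zt ^ s.val) = 1 := by
  rw [Complex.mul_conj, Complex.normSq_eq_norm_sq, norm_ztp]
  simp

private theorem mul_conj_chE (i : Fin 3) (g : Gp) : chE i g * conj (chE i g) = 1 :=
  mul_conj_ztp (g.q i)

private theorem act_inv' {A : Type} [Fintype A] (g : Gp) (v : Rg Gp A) :
    act g (act g⁻¹ v) = v := by
  rw [← act_mul, mul_inv_cancel, act_one]

private theorem act_adj {A : Type} [Fintype A] (g : Gp) (x v : Rg Gp A) :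
    inner ℂ x (actL g⁻¹ v) = inner ℂ (actL g x) v := by
  rw [actL_apply, actL_apply]
  conv_rhs => rw [← act_inv' g v]
  rw [LinearIsometryEquiv.inner_map_map]

private theorem ph_mul (s : ZMod 3) (z : ℂ) : ph (zt ^ s.val * z) = zt ^ s.val * ph z := by
  unfold ph
  rw [norm_mul, norm_ztp, one_mul, mul_div_assoc]

private theorem PLn_act (u : Fin 3 → J) (i : Fin 3) (g : Gp) (m μ : ℂ) :
    PLn I u i (zt ^ (g.q (i + 2)).val * m) (zt ^ (g.q (i + 1)).val * μ) =
      cj (actL g) (actL g⁻¹) (PLn I u i m μ) := by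
  unfold PLn
  rw [map_sum, NN_rot]
  rw [← Equiv.sum_comp (Equiv.addRight (g.q (i + 2)))]
  refine Finset.sum_congr rfl fun a _ => ?_
  rw [map_sum, ← Equiv.sum_comp (Equiv.addRight (g.q (i + 2)))]
  refine Finset.sum_congr rfl fun b _ => ?_
  rw [map_smul, cj_rk (act_adj g)]
  simp only [Equiv.coe_addRight, actL_apply]
  rw [MM_rot, act_EE, act_EE, rk_smul, smul_smul, zt_pow_add, zt_pow_add, map_mul]
  congr 1
  have h := mul_conj_ztp (g.n i)
  have e : MM m μ a b / (243 * (NN m : ℂ)) * (zt ^ (g.n i).val * zt ^ (g.q (i + 1) * a).val *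
      ((starRingEnd ℂ) (zt ^ (g.n i).val) * (starRingEnd ℂ) (zt ^ (g.q (i + 1) * b).val))) =
      (zt ^ (g.n i).val * (starRingEnd ℂ) (zt ^ (g.n i).val)) *
        (MM m μ a b / (243 * (NN m : ℂ)) * (zt ^ (g.q (i + 1) * a).val *
          (starRingEnd ℂ) (zt ^ (g.q (i + 1) * b).val))) := by
    ring
  rw [e, h]
  ring

private theorem elt_pos (i₀ : I) {u : Fin 3 → J} (hu : Function.Injective u) {m : ℕ}
    (hm : m = Fintype.card I * 729 + 3) (v : Rg Gp I) (t : EuclideanSpace ℝ (Fin 3))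
    (hz : ∀ i, zz i₀ i v ≠ 0) :
    elt i₀ hu hm (((v, t) : Rg Gp I × EuclideanSpace ℝ (Fin 3)) : OnePoint _) =
      OnePoint.some (X := Taut (Rg Gp (I ⊕ J)) m)
        ⟨(Pm i₀ u (fun i => zz i₀ i v), um i₀ u v t), isTaut_elt i₀ hu v t hz hm⟩ := by
  show eltP i₀ hu hm (v, t) = _
  unfold eltP
  exact dif_pos hz

private theorem elt_neg (i₀ : I) {u : Fin 3 → J} (hu : Function.Injective u) {m : ℕ}
    (hm : m = Fintype.card I * 729 + 3) (v : Rg Gp I) (t : EuclideanSpace ℝ (Fin 3))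
    (hz : ¬ ∀ i, zz i₀ i v ≠ 0) :
    elt i₀ hu hm (((v, t) : Rg Gp I × EuclideanSpace ℝ (Fin 3)) : OnePoint _) = ∞ := by
  show eltP i₀ hu hm (v, t) = _
  unfold eltP
  exact dif_neg hz

private theorem some_congr {E : Type} [NormedAddCommGroup E] [InnerProductSpace ℂ E] {m : ℕ}
    {P P' : E →L[ℂ] E} {w w' : E} (h : IsTaut m (P, w)) (h' : IsTaut m (P', w')) (hP : P = P')
    (hw : w = w') : OnePoint.some (X := Taut E m) ⟨(P, w), h⟩ =
      OnePoint.some (X := Taut E m) ⟨(P', w'), h'⟩ := by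
  subst hP hw
  rfl

private theorem thomAct_some {A : Type} [Fintype A] {m : ℕ} (g : Gp)
    {P : Rg Gp A →L[ℂ] Rg Gp A} {w : Rg Gp A} (h : IsTaut m (P, w)) :
    thomAct g (OnePoint.some (X := Taut (Rg Gp A) m) ⟨(P, w), h⟩) =
      OnePoint.some (X := Taut (Rg Gp A) m)
        ⟨(actL g ∘L P ∘L actL g⁻¹, act g w), isTaut_act g h⟩ := rfl

private theorem res_adj {A A' : Type} [Fintype A] [Fintype A'] {φ : A → A'}
    (hφ : Function.Injective φ) (x : Rg Gp A) (v : Rg Gp A') :
    inner ℂ x (res φ v) = inner ℂ (ext φ x) v := by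
  rw [PiLp.inner_apply, PiLp.inner_apply]
  refine Fintype.sum_of_injective (fun p : A × Gp => (φ p.1, p.2)) ?_ _ _ ?_ ?_
  · rintro ⟨a, g⟩ ⟨a', g'⟩ h
    simp only [Prod.mk.injEq] at h
    exact Prod.ext (hφ h.1) h.2
  · rintro ⟨a', g⟩ h
    have h1 : ext φ x (a', g) = 0 := by
      refine ext_apply_not x ?_ g
      rintro ⟨a, rfl⟩
      exact h ⟨(a, g), rfl⟩
    show inner ℂ (ext φ x (a', g)) (v (a', g)) = (0 : ℂ)
    rw [h1, inner_zero_left]
  · rintro ⟨a, g⟩
    show inner ℂ (x (a, g)) (v (φ a, g)) = inner ℂ (ext φ x (φ a, g)) (v (φ a, g))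
    rw [ext_apply hφ]

private theorem ext_ext' {A A' A'' : Type} [Fintype A] [Fintype A'] [Fintype A''] {φ : A → A'}
    {φ' : A' → A''} (hφ : Function.Injective φ) (hφ' : Function.Injective φ') (v : Rg Gp A) :
    ext φ' (ext φ v) = ext (φ' ∘ φ) v := by
  ext p
  obtain ⟨i, h⟩ := p
  by_cases h1 : ∃ a', φ' a' = i
  · obtain ⟨a', rfl⟩ := h1
    rw [ext_apply hφ']
    by_cases h2 : ∃ a, φ a = a'
    · obtain ⟨a, rfl⟩ := h2
      rw [ext_apply hφ]
      exact (ext_apply (hφ'.comp hφ) v a h).symm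
    · rw [ext_apply_not v h2, ext_apply_not]
      rintro ⟨a, ha⟩
      exact h2 ⟨a, hφ' ha⟩
  · rw [ext_apply_not _ h1, ext_apply_not]
    rintro ⟨a, ha⟩
    exact h1 ⟨φ a, ha⟩

/-- a vector supported in one copy -/
private theorem ext_single {A A' : Type} [Fintype A] [Fintype A'] {φ : A → A'}
    (hφ : Function.Injective φ) (a₀ : A) (f : Gp → ℂ) {v : Rg Gp A} {v' : Rg Gp A'}
    (hv : ∀ h, v (a₀, h) = f h) (hv0 : ∀ a h, a ≠ a₀ → v (a, h) = 0)
    (hv' : ∀ h, v' (φ a₀, h) = f h) (hv0' : ∀ a h, a ≠ φ a₀ → v' (a, h) = 0) :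
    ext φ v = v' := by
  ext p
  obtain ⟨i, h⟩ := p
  by_cases h1 : ∃ a', φ a' = i
  · obtain ⟨a', rfl⟩ := h1
    rw [ext_apply hφ]
    by_cases h2 : a' = a₀
    · rw [h2, hv, hv']
    · rw [hv0 a' h h2, hv0' (φ a') h fun h => h2 (hφ h)]
  · rw [ext_apply_not v h1, hv0']
    exact fun h => h1 ⟨a₀, h.symm⟩

private theorem bV_same (i₀ : I) (i : Fin 3) (h : Gp) : bV i₀ i (i₀, h) = conj (chE i h) / 27 :=
  if_pos rfl

private theorem bV_ne (i₀ : I) (i : Fin 3) (a : I) (h : Gp) (ha : a ≠ i₀) :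
    bV i₀ i (a, h) = 0 :=
  if_neg ha

private theorem eU_same (u : Fin 3 → J) (i : Fin 3) (h : Gp) :
    eU I u i (Sum.inr (u i), h) = 1 / 27 :=
  if_pos rfl

private theorem eU_ne (u : Fin 3 → J) (i : Fin 3) (a : I ⊕ J) (h : Gp)
    (ha : a ≠ Sum.inr (u i)) : eU I u i (a, h) = 0 :=
  if_neg ha

private theorem EE_same (u : Fin 3 → J) (i : Fin 3) (a : ZMod 3) (h : Gp) :
    EE I u i a (Sum.inr (u i), h) =
      if h.q (i + 2) = a then conj (zt ^ (h.n i).val) else 0 := by
  by_cases h1 : h.q (i + 2) = a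
  · rw [if_pos h1]
    exact if_pos ⟨rfl, h1⟩
  · rw [if_neg h1]
    exact if_neg fun h2 => h1 h2.2

private theorem EE_ne (u : Fin 3 → J) (i : Fin 3) (a : ZMod 3) (b : I ⊕ J) (h : Gp)
    (hb : b ≠ Sum.inr (u i)) : EE I u i a (b, h) = 0 :=
  if_neg fun h2 => hb h2.1

private theorem ext_bV {I' : Type} [Fintype I'] {φ : I → I'} (hφ : Function.Injective φ)
    (i₀ : I) (i : Fin 3) : ext φ (bV i₀ i) = bV (φ i₀) i :=
  ext_single hφ i₀ _ (bV_same i₀ i) (bV_ne i₀ i) (bV_same (φ i₀) i) (bV_ne (φ i₀) i)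

private theorem zz_res {I' : Type} [Fintype I'] {φ : I → I'} (hφ : Function.Injective φ)
    (i₀ : I) (i : Fin 3) (v : Rg Gp I') : zz i₀ i (res φ v) = zz (φ i₀) i v := by
  unfold zz
  rw [res_adj hφ, ext_bV hφ]

omit [Fintype I] [Fintype J] in
private theorem map_inj {I' J' : Type} {φ : I → I'} {ψ : J → J'} (hφ : Function.Injective φ)
    (hψ : Function.Injective ψ) : Function.Injective (Sum.map φ ψ) :=
  Sum.map_injective.2 ⟨hφ, hψ⟩

private theorem ext_bA {I' J' : Type} [Fintype I'] [Fintype J'] {φ : I → I'} {ψ : J → J'}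
    (hφ : Function.Injective φ) (hψ : Function.Injective ψ) (i₀ : I) (i : Fin 3) :
    ext (Sum.map φ ψ) (bA J i₀ i) = bA J' (φ i₀) i := by
  unfold bA
  rw [ext_ext' Sum.inl_injective (map_inj hφ hψ), ← ext_bV hφ,
    ext_ext' hφ Sum.inl_injective]
  rfl

private theorem ext_eU {I' J' : Type} [Fintype I'] [Fintype J'] {φ : I → I'} {ψ : J → J'}
    (hφ : Function.Injective φ) (hψ : Function.Injective ψ) (u : Fin 3 → J) (i : Fin 3) :
    ext (Sum.map φ ψ) (eU I u i) = eU I' (ψ ∘ u) i :=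
  ext_single (map_inj hφ hψ) (Sum.inr (u i)) _ (eU_same u i) (eU_ne u i) (eU_same (ψ ∘ u) i)
    (eU_ne (ψ ∘ u) i)

private theorem ext_EE {I' J' : Type} [Fintype I'] [Fintype J'] {φ : I → I'} {ψ : J → J'}
    (hφ : Function.Injective φ) (hψ : Function.Injective ψ) (u : Fin 3 → J) (i : Fin 3)
    (a : ZMod 3) : ext (Sum.map φ ψ) (EE I u i a) = EE I' (ψ ∘ u) i a :=
  ext_single (map_inj hφ hψ) (Sum.inr (u i)) _ (EE_same u i a) (EE_ne u i a)
    (EE_same (ψ ∘ u) i a) (EE_ne (ψ ∘ u) i a)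

private theorem cj_PLn {I' J' : Type} [Fintype I'] [Fintype J'] {φ : I → I'} {ψ : J → J'}
    (hφ : Function.Injective φ) (hψ : Function.Injective ψ) (u : Fin 3 → J) (i : Fin 3)
    (m μ : ℂ) : cj (ext (Sum.map φ ψ)) (res (Sum.map φ ψ)) (PLn I u i m μ) =
      PLn I' (ψ ∘ u) i m μ := by
  unfold PLn
  rw [map_sum]
  refine Finset.sum_congr rfl fun a _ => ?_
  rw [map_sum]
  refine Finset.sum_congr rfl fun b _ => ?_
  rw [map_smul, cj_rk (res_adj (map_inj hφ hψ)), ext_EE hφ hψ, ext_EE hφ hψ]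

private theorem stabP_Pm {I' J' : Type} [Fintype I'] [Fintype J'] {φ : I → I'} {ψ : J → J'}
    (hφ : Function.Injective φ) (hψ : Function.Injective ψ) {B : Set (I' ⊕ J')}
    (hB : ∀ i', Sum.inl i' ∈ B ↔ i' ∉ Set.range φ) (hB' : ∀ j', Sum.inr j' ∉ B) (i₀ : I)
    (u : Fin 3 → J) (z : Fin 3 → ℂ) :
    stabP (Sum.map φ ψ) B (Pm i₀ u z) = Pm (φ i₀) (ψ ∘ u) z := by
  have hC : stabP (Sum.map φ ψ) B (Pm i₀ u z) =
      cj (ext (Sum.map φ ψ)) (res (Sum.map φ ψ)) (Pm i₀ u z) + blk B := rfl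
  rw [hC]
  have hblk : cj (ext (Sum.map φ ψ)) (res (Sum.map φ ψ))
      (blk (Set.range Sum.inl) : Rg Gp (I ⊕ J) →L[ℂ] Rg Gp (I ⊕ J)) + blk B =
      (blk (Set.range Sum.inl) : Rg Gp (I' ⊕ J') →L[ℂ] Rg Gp (I' ⊕ J')) := by
    refine ContinuousLinearMap.ext fun v => ?_
    show ext (Sum.map φ ψ) (blk (Set.range Sum.inl) (res (Sum.map φ ψ) v)) + blk B v =
      blk (Set.range Sum.inl) v
    ext p
    obtain ⟨i', g⟩ := p
    show ext (Sum.map φ ψ) (blk (Set.range Sum.inl) (res (Sum.map φ ψ) v)) (i', g) +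
      blk B v (i', g) = blk (Set.range Sum.inl) v (i', g)
    rcases i' with i' | j'
    · rw [blk_apply_mem (B := Set.range Sum.inl) v (p := (Sum.inl i', g)) ⟨i', rfl⟩]
      by_cases h : i' ∈ Set.range φ
      · obtain ⟨i, rfl⟩ := h
        have h1 := ext_apply (map_inj hφ hψ)
          (blk (Set.range Sum.inl) (res (Sum.map φ ψ) v)) (Sum.inl i : I ⊕ J) g
        have h2 : (blk (Set.range Sum.inl) (res (Sum.map φ ψ) v)) ((Sum.inl i : I ⊕ J), g) =
            v (Sum.inl (φ i), g) := by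
          rw [blk_apply_mem _ (by exact ⟨i, rfl⟩)]
          rfl
        rw [h2] at h1
        have h3 : blk B v (Sum.inl (φ i), g) = 0 :=
          blk_apply_not_mem v (fun h => ((hB (φ i)).mp h) ⟨i, rfl⟩)
        rw [h3, add_zero]
        exact h1
      · rw [blk_apply_mem (B := B) v ((hB i').mpr h), ext_apply_not, zero_add]
        rintro ⟨a | a, ha⟩
        · simp only [Sum.map_inl, Sum.inl.injEq] at ha
          exact h ⟨a, ha⟩
        · simp at ha
    · rw [blk_apply_not_mem (B := B) v (hB' j'), add_zero,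
        blk_apply_not_mem (B := Set.range Sum.inl) v (by simp)]
      by_cases h : ∃ a, Sum.map φ ψ a = Sum.inr j'
      · obtain ⟨a, ha⟩ := h
        rw [← ha, ext_apply (map_inj hφ hψ)]
        rcases a with a | a
        · simp at ha
        · exact blk_apply_not_mem _ (by simp)
      · exact ext_apply_not _ h g
  have hsum : ∀ (P Q R T : Rg Gp (I' ⊕ J') →L[ℂ] Rg Gp (I' ⊕ J')),
      P - Q + R + T + blk B = P + blk B - Q + R + T := by
    intro P Q R T
    abel
  unfold Pm
  rw [map_add, map_add, map_sub, map_sum, map_sum, map_sum, hsum, hblk]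
  congr 1
  · congr 1
    · congr 1
      refine Finset.sum_congr rfl fun i _ => ?_
      rw [cj_rk (res_adj (map_inj hφ hψ)), ext_bA hφ hψ]
    · refine Finset.sum_congr rfl fun i _ => ?_
      rw [cj_rk (res_adj (map_inj hφ hψ)), ext_eU hφ hψ]
  · refine Finset.sum_congr rfl fun i _ => ?_
    rw [cj_PLn hφ hψ]

private theorem ext_um {I' J' : Type} [Fintype I'] [Fintype J'] {φ : I → I'} {ψ : J → J'}
    (hφ : Function.Injective φ) (hψ : Function.Injective ψ) {B : Set (I' ⊕ J')}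
    (hB : ∀ i', Sum.inl i' ∈ B ↔ i' ∉ Set.range φ) (hB' : ∀ j', Sum.inr j' ∉ B) (i₀ : I)
    (u : Fin 3 → J) (v : Rg Gp I') (t : EuclideanSpace ℝ (Fin 3)) :
    ext (Sum.map φ ψ) (um i₀ u (res φ v) t) + blk B (ext Sum.inl v) =
      um (φ i₀) (ψ ∘ u) v t := by
  have hv : ext (Sum.map φ ψ) (ext Sum.inl (res φ v)) + blk B (ext Sum.inl v) =
      (ext Sum.inl v : Rg Gp (I' ⊕ J')) := by
    rw [ext_ext' Sum.inl_injective (map_inj hφ hψ)]
    ext p
    obtain ⟨i', g⟩ := p
    show ext (Sum.map φ ψ ∘ Sum.inl) (res φ v) (i', g) + blk B (ext Sum.inl v) (i', g) =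
      ext Sum.inl v (i', g)
    have hinj : Function.Injective (Sum.map φ ψ ∘ (Sum.inl : I → I ⊕ J)) :=
      (map_inj hφ hψ).comp Sum.inl_injective
    rcases i' with i' | j'
    · rw [ext_apply Sum.inl_injective v i' g]
      by_cases h : i' ∈ Set.range φ
      · obtain ⟨i, rfl⟩ := h
        have h1 := ext_apply hinj (res φ v) i g
        have h3 : blk B (ext Sum.inl v) ((Sum.inl (φ i) : I' ⊕ J'), g) = 0 :=
          blk_apply_not_mem _ (fun h => ((hB (φ i)).mp h) ⟨i, rfl⟩)
        rw [h3, add_zero]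
        exact h1
      · rw [blk_apply_mem (B := B) _ ((hB i').mpr h), ext_apply_not, zero_add,
          ext_apply Sum.inl_injective v i' g]
        rintro ⟨a, ha⟩
        simp only [Function.comp_apply, Sum.map_inl, Sum.inl.injEq] at ha
        exact h ⟨a, ha⟩
    · rw [blk_apply_not_mem (B := B) _ (hB' j'), add_zero, ext_apply_not, ext_apply_not]
      · rintro ⟨a, ha⟩
        simp at ha
      · rintro ⟨a, ha⟩
        simp at ha
  unfold um
  rw [map_add, map_sub, map_sum, map_sum]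
  have hsum : ∀ (P Q R T : Rg Gp (I' ⊕ J')), P - Q + R + T = P + T - Q + R := by
    intro P Q R T
    abel
  rw [hsum, hv]
  congr 1
  · congr 1
    refine Finset.sum_congr rfl fun i _ => ?_
    rw [map_smul, ext_bA hφ hψ, zz_res hφ]
  · refine Finset.sum_congr rfl fun i _ => ?_
    rw [map_smul, ext_eU hφ hψ, zz_res hφ]

theorem Pm_act (i₀ : I) (u : Fin 3 → J) (g : Gp) (z : Fin 3 → ℂ) :
    Pm i₀ u (fun i => chE i g * z i) = actL g ∘L Pm i₀ u z ∘L actL g⁻¹ := by
  have hC : actL g ∘L Pm i₀ u z ∘L actL g⁻¹ = cj (actL g) (actL g⁻¹) (Pm i₀ u z) := rfl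
  rw [hC]
  unfold Pm
  rw [map_add, map_add, map_sub, map_sum, map_sum, map_sum]
  congr 1
  · congr 1
    · congr 1
      · refine ContinuousLinearMap.ext fun v => ?_
        show blk _ v = act g (blk _ (act g⁻¹ v))
        rw [act_blk, act_inv']
      · refine Finset.sum_congr rfl fun i _ => ?_
        rw [cj_rk (act_adj g), actL_apply, act_bA, rk_smul, mul_conj_chE, one_smul]
    · refine Finset.sum_congr rfl fun i _ => ?_
      rw [cj_rk (act_adj g), actL_apply, act_eU]
  · refine Finset.sum_congr rfl fun i _ => ?_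
    rw [← PLn_act, ← ph_mul, ← ph_mul]
    rfl

theorem um_act (i₀ : I) (u : Fin 3 → J) (g : Gp) (v : Rg Gp I) (t : EuclideanSpace ℝ (Fin 3)) :
    um i₀ u (act g v) t = act g (um i₀ u v t) := by
  unfold um
  rw [map_add, map_sub, map_sum, map_sum]
  congr 1
  · congr 1
    refine Finset.sum_congr rfl fun i _ => ?_
    rw [map_smul, act_bA, zz_act, smul_smul, mul_comm]
  · refine Finset.sum_congr rfl fun i _ => ?_
    rw [map_smul, act_eU, zz_act, norm_mul, norm_chE, one_mul]

theorem elt_equi (i₀ : I) {u : Fin 3 → J} (hu : Function.Injective u) {m : ℕ}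
    (hm : m = Fintype.card I * 729 + 3) (g : Gp)
    (x : OnePoint (Rg Gp I × EuclideanSpace ℝ (Fin 3))) :
    elt i₀ hu hm (OnePoint.map (fun x => (act g x.1, x.2)) x) = thomAct g (elt i₀ hu hm x) := by
  induction x using OnePoint.rec with
  | infty => rfl
  | coe p =>
    obtain ⟨v, t⟩ := p
    have h0 : OnePoint.map (fun x : Rg Gp I × EuclideanSpace ℝ (Fin 3) => (act g x.1, x.2))
        (((v, t) : Rg Gp I × EuclideanSpace ℝ (Fin 3)) : OnePoint _) =
        (((act g v, t) : Rg Gp I × EuclideanSpace ℝ (Fin 3)) : OnePoint _) := rfl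
    rw [h0]
    have hne : ∀ i, chE i g ≠ 0 := fun i h => by
      have := norm_chE i g
      rw [h, norm_zero] at this
      exact zero_ne_one this
    by_cases hz : ∀ i, zz i₀ i v ≠ 0
    · have hz' : ∀ i, zz i₀ i (act g v) ≠ 0 := fun i => by
        rw [zz_act]
        exact mul_ne_zero (hne i) (hz i)
      rw [elt_pos i₀ hu hm v t hz, elt_pos i₀ hu hm (act g v) t hz']
      rw [thomAct_some]
      refine some_congr _ _ ?_ ?_
      · rw [← Pm_act]
        congr 1
        funext i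
        rw [zz_act]
      · exact um_act i₀ u g v t
    · have hz' : ¬ ∀ i, zz i₀ i (act g v) ≠ 0 := fun h => hz fun i hi => by
        refine h i ?_
        rw [zz_act, hi, mul_zero]
      rw [elt_neg i₀ hu hm v t hz, elt_neg i₀ hu hm (act g v) t hz']
      rfl

theorem elt_susp (k j : ℕ) :
    suspF (a := 3) (b := 3) (k := k + 1) (j := j + 3)
      (elt (0 : Fin (k + 1)) (u3_inj j) (dim3 k)) =
      elt (0 : Fin (k + 2)) (u3_inj j) (dim3 (k + 1)) := by
  funext x
  induction x using OnePoint.rec with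
  | infty => rfl
  | coe p =>
    obtain ⟨v, t⟩ := p
    have h1 : suspF (a := 3) (b := 3) (k := k + 1) (j := j + 3)
        (elt (0 : Fin (k + 1)) (u3_inj j) (dim3 k))
        (((v, t) : Rg Gp (Fin (k + 2)) × EuclideanSpace ℝ (Fin 3)) : Sph Gp 3 (k + 2)) =
        OnePoint.map (fun y => stabTaut (upS_inj (k + 1) (j + 3)) (upS_not_mem (k + 1) (j + 3))
          (dimS (Fintype.card Gp) (k + 1) (j + 3) 3) y (ext Sum.inl v))
        (elt (0 : Fin (k + 1)) (u3_inj j) (dim3 k) (((res Fin.castSucc v, t) :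
          Rg Gp (Fin (k + 1)) × EuclideanSpace ℝ (Fin 3)) : OnePoint _)) := rfl
    rw [h1]
    have h2 : Sum.map Fin.castSucc id = upS (k + 1) (j + 3) := rfl
    have hzr : ∀ i, zz (0 : Fin (k + 1)) i (res Fin.castSucc v) = zz (0 : Fin (k + 2)) i v :=
      fun i => zz_res (Fin.castSucc_injective _) 0 i v
    by_cases hz : ∀ i, zz (0 : Fin (k + 2)) i v ≠ 0
    · have hz' : ∀ i, zz (0 : Fin (k + 1)) i (res Fin.castSucc v) ≠ 0 := fun i => by
        rw [hzr]
        exact hz i
      rw [elt_pos _ _ _ v t hz, elt_pos _ _ _ _ t hz']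
      refine congrArg OnePoint.some (Subtype.ext (Prod.ext ?_ ?_))
      · have h3 := stabP_Pm (φ := (Fin.castSucc : Fin (k + 1) → Fin (k + 2)))
          (ψ := (id : Fin (j + 3) → Fin (j + 3))) (Fin.castSucc_injective _)
          Function.injective_id (B := {Sum.inl (Fin.last (k + 1))})
          (by
            intro i'
            induction i' using Fin.lastCases with
            | last => simp
            | cast i =>
              constructor
              · intro h
                exact absurd (Sum.inl.inj (Set.mem_singleton_iff.mp h)) (Fin.castSucc_ne_last i)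
              · intro h
                exact absurd ⟨i, rfl⟩ h)
          (by simp) 0 (u3 j) (fun i => zz (0 : Fin (k + 2)) i v)
        have h4 : (fun i => zz (0 : Fin (k + 1)) i (res Fin.castSucc v)) =
            fun i => zz (0 : Fin (k + 2)) i v := funext hzr
        show stabP _ _ (Pm 0 (u3 j) fun i => zz (0 : Fin (k + 1)) i (res Fin.castSucc v)) = _
        rw [h4]
        exact h3
      · exact ext_um (φ := (Fin.castSucc : Fin (k + 1) → Fin (k + 2)))
          (ψ := (id : Fin (j + 3) → Fin (j + 3))) (Fin.castSucc_injective _)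
          Function.injective_id (B := {Sum.inl (Fin.last (k + 1))})
          (by
            intro i'
            induction i' using Fin.lastCases with
            | last => simp
            | cast i =>
              constructor
              · intro h
                exact absurd (Sum.inl.inj (Set.mem_singleton_iff.mp h)) (Fin.castSucc_ne_last i)
              · intro h
                exact absurd ⟨i, rfl⟩ h)
          (by simp) 0 (u3 j) v t
    · have hz' : ¬ ∀ i, zz (0 : Fin (k + 1)) i (res Fin.castSucc v) ≠ 0 := fun h => hz fun i => by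
        rw [← hzr]
        exact h i
      rw [elt_neg _ _ _ v t hz, elt_neg _ _ _ _ t hz']
      rfl

theorem elt_incl (k j : ℕ) :
    inclF (a := 3) (b := 3) (k := k + 1) (j := j + 3)
      (elt (0 : Fin (k + 1)) (u3_inj j) (dim3 k)) =
      elt (0 : Fin (k + 1)) (u3_inj (j + 1)) (dim3 k) := by
  funext x
  induction x using OnePoint.rec with
  | infty => rfl
  | coe p =>
    obtain ⟨v, t⟩ := p
    have h1 : inclF (a := 3) (b := 3) (k := k + 1) (j := j + 3)
        (elt (0 : Fin (k + 1)) (u3_inj j) (dim3 k))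
        (((v, t) : Rg Gp (Fin (k + 1)) × EuclideanSpace ℝ (Fin 3)) : Sph Gp 3 (k + 1)) =
        OnePoint.map (fun y => stabTaut (upI_inj (k + 1) (j + 3)) (upI_not_mem (k + 1) (j + 3))
          (dimI (Fintype.card Gp) (k + 1) (j + 3) 3) y 0)
        (elt (0 : Fin (k + 1)) (u3_inj j) (dim3 k) (((v, t) :
          Rg Gp (Fin (k + 1)) × EuclideanSpace ℝ (Fin 3)) : OnePoint _)) := rfl
    rw [h1]
    by_cases hz : ∀ i, zz (0 : Fin (k + 1)) i v ≠ 0
    · rw [elt_pos _ (u3_inj j) _ v t hz, elt_pos _ (u3_inj (j + 1)) _ v t hz]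
      refine congrArg OnePoint.some (Subtype.ext (Prod.ext ?_ ?_))
      · exact stabP_Pm (φ := (id : Fin (k + 1) → Fin (k + 1)))
          (ψ := (Fin.castSucc : Fin (j + 3) → Fin (j + 3 + 1))) Function.injective_id
          (Fin.castSucc_injective _) (B := ∅) (by simp) (by simp) 0 (u3 j)
          (fun i => zz (0 : Fin (k + 1)) i v)
      · have h3 := ext_um (φ := (id : Fin (k + 1) → Fin (k + 1)))
          (ψ := (Fin.castSucc : Fin (j + 3) → Fin (j + 3 + 1))) Function.injective_id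
          (Fin.castSucc_injective _) (B := ∅) (by simp) (by simp) 0 (u3 j) v t
        have h4 : blk (∅ : Set (Fin (k + 1) ⊕ Fin (j + 3 + 1)))
            (ext Sum.inl v) = blk (∅ : Set (Fin (k + 1) ⊕ Fin (j + 3 + 1))) (0 : Rg Gp _) := by
          ext p
          rw [blk_apply_not_mem _ (by simp), blk_apply_not_mem _ (by simp)]
        rw [h4] at h3
        exact h3
    · rw [elt_neg _ (u3_inj j) _ v t hz, elt_neg _ (u3_inj (j + 1)) _ v t hz]
      rfl

end EMU
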