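import Pool.Agent.Lib.EMU.E.Defs
import Pool.Agent.Lib.EMU.C.GrpL

/-!
# MP_9aab3b_gt, module E.Inner: inner products and the action on the basic vectors

PROOF. Inner product of `EuclideanSpace`: `⟪x, y⟫ = ∑ p, conj (x p) * y p` (`PiLp.inner_apply`, `Fintype.sum_prod_type`). Sums over `Gp`: use
`Gp.equivProd` (`g = (q, n)`), `∑ n : Q3, ζ^(n i) = 0` (a non trivial character; `∑ a : ZMod 3, zt ^ a.val = 1 + zt + zt^2 = 0`), `∑ q, ζ^(q i) ζ^(-q j) = 27 δ_ij`.
`chE` is multiplicative (`Gp.mul_def`, `zt_pow_add`) with `‖chE i g‖ = 1`.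
* `⟪bV i, bV j⟫ = (1/729) ∑ g, chE i g * conj (chE j g) = δ_ij`; `⟪ext inl v, ext inl w⟫ = ⟪v, w⟫` (`ext_apply`, `ext_apply_not`).
* `⟪eU i, eU j⟫ = δ_ij` (`u` injective, `729 / 27^2 = 1`).
* `⟪EE i a, EE j b⟫`: different copies if `i ≠ j`; for `i = j` the supports are disjoint if `a ≠ b`; for `a = b` the number of `g` with `g.q (i+2) = a` is 243.
* mixed products: different copies, or `∑ n, ζ^(-n i) = 0`.
* `act g (EE i a)` at `h`: `(g⁻¹ h).q (i+2) = h.q (i+2) - g.q (i+2)`, `(g⁻¹ h).n i = h.n i - g.n i + g.q (i+1) g.q (i+2) - g.q (i+1) h.q (i+2)` (from `Gp.inv_def`,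
  `Gp.mul_def`, `beta`); on the support `h.q (i+2) = a + g.q (i+2)` this is `h.n i - g.n i - g.q (i+1) a`, so the value is
  `conj (ζ^(h.n i)) ζ^(g.n i + g.q (i+1) a)`.
* `zz_act`: substitute `h ↦ g h` in the sum.
* `zz_ext`…: none needed.
-/

set_option autoImplicit false

open scoped Topology OnePoint ComplexConjugate

namespace EMU

variable {I J : Type} [Fintype I] [Fintype J]

theorem chE_mul (i : Fin 3) (g h : Gp) : chE i (g * h) = chE i g * chE i h := by
  change zt ^ ((g.q + h.q) i).val = _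
  rw [Pi.add_apply, zt_pow_add]
  rfl

theorem norm_chE (i : Fin 3) (g : Gp) : ‖chE i g‖ = 1 := by
  unfold chE
  rw [norm_pow, Complex.norm_eq_one_of_pow_eq_one zt_pow_three (by norm_num), one_pow]

private theorem inn_norm_zt : ‖zt‖ = 1 :=
  Complex.norm_eq_one_of_pow_eq_one zt_pow_three (by norm_num)

private theorem inn_mul_conj {z : ℂ} (h : ‖z‖ = 1) : z * conj z = 1 := by
  rw [Complex.mul_conj, Complex.normSq_eq_norm_sq, h]
  simp

private theorem inn_zt_pow (n : ℕ) : ‖zt ^ n‖ = 1 := by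
  rw [norm_pow, inn_norm_zt, one_pow]

private theorem inn_conj (a : ZMod 3) : conj (zt ^ a.val) = zt ^ (-a).val := by
  have h1 := zt_pow_add a (-a)
  rw [add_neg_cancel] at h1
  have h2 : zt ^ (0 : ZMod 3).val = 1 := by
    rw [ZMod.val_zero, pow_zero]
  rw [h2] at h1
  exact mul_left_cancel₀ (pow_ne_zero _ zt_ne_zero) ((inn_mul_conj (inn_zt_pow _)).trans h1)

private theorem inn_zt_ne_one : zt ≠ 1 := by
  intro h
  have h1 : zt ^ (1 : ZMod 3).val = 1 := by
    rw [h, one_pow]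
  exact absurd (zt_pow_eq_one h1) (by decide)

private theorem inn_conj_ne_one : conj zt ≠ 1 := fun h =>
  inn_zt_ne_one (by rw [← Complex.conj_conj zt, h, map_one])

private theorem inn_eq {A : Type} [Fintype A] (x y : Rg Gp A) :
    inner ℂ x y = ∑ a : A, ∑ g : Gp, y (a, g) * conj (x (a, g)) := by
  rw [PiLp.inner_apply, Fintype.sum_prod_type]
  rfl

private theorem inn_eq2 (x y : Rg Gp (I ⊕ J)) :
    inner ℂ x y = (∑ a : I, ∑ g : Gp, y (Sum.inl a, g) * conj (x (Sum.inl a, g))) +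
      ∑ b : J, ∑ g : Gp, y (Sum.inr b, g) * conj (x (Sum.inr b, g)) := by
  rw [inn_eq, Fintype.sum_sum_type]

private theorem inn_zero (F : Gp → ℂ) (w : Gp) {c : ℂ} (hc : c ≠ 1)
    (h : ∀ g, F (g * w) = c * F g) : ∑ g, F g = 0 := by
  have h1 : ∑ g, F g = c * ∑ g, F g := by
    conv_lhs => rw [← Equiv.sum_comp (Equiv.mulRight w)]
    rw [Finset.mul_sum]
    exact Finset.sum_congr rfl fun g _ => h g
  have h2 : (1 - c) * ∑ g, F g = 0 := by
    rw [sub_mul, one_mul, ← h1, sub_self]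
  rcases mul_eq_zero.1 h2 with h3 | h3
  · exact absurd (sub_eq_zero.1 h3).symm hc
  · exact h3

open Classical in
private theorem bV_at (i₀ : I) (i : Fin 3) (k : I) (g : Gp) :
    bV i₀ i (k, g) = if k = i₀ then conj (chE i g) / 27 else 0 := rfl

private theorem ext_inl (v : Rg Gp I) (a : I) (g : Gp) :
    ext (Sum.inl : I → I ⊕ J) v (Sum.inl a, g) = v (a, g) :=
  ext_apply Sum.inl_injective v a g

private theorem ext_inr (v : Rg Gp I) (b : J) (g : Gp) :
    ext (Sum.inl : I → I ⊕ J) v (Sum.inr b, g) = 0 :=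
  ext_apply_not v (by rintro ⟨a, ha⟩; cases ha) g

private theorem eU_inl (u : Fin 3 → J) (i : Fin 3) (a : I) (g : Gp) :
    eU I u i (Sum.inl a, g) = 0 := by
  classical
  simp [eU]

open Classical in
private theorem eU_inr (u : Fin 3 → J) (i : Fin 3) (b : J) (g : Gp) :
    eU I u i (Sum.inr b, g) = if b = u i then 1 / 27 else 0 := by
  simp [eU]

private theorem EE_inl (u : Fin 3 → J) (i : Fin 3) (a : ZMod 3) (k : I) (g : Gp) :
    EE I u i a (Sum.inl k, g) = 0 := by
  classical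
  simp [EE]

open Classical in
private theorem EE_inr (u : Fin 3 → J) (i : Fin 3) (a : ZMod 3) (b : J) (g : Gp) :
    EE I u i a (Sum.inr b, g) =
      if b = u i ∧ g.q (i + 2) = a then conj (zt ^ (g.n i).val) else 0 := by
  simp [EE]

private theorem inn_card : ∑ _g : Gp, (1 : ℂ) = 729 := by
  rw [Finset.sum_const, Finset.card_univ, Gp.card_eq]
  norm_num

private theorem inn_cnt (k : Fin 3) (a : ZMod 3) :
    ∑ g : Gp, (if g.q k = a then (1 : ℂ) else 0) = 243 := by
  have h1 : ∀ c : ZMod 3, ∑ g : Gp, (if g.q k = c then (1 : ℂ) else 0) =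
      ∑ g : Gp, (if g.q k = a then (1 : ℂ) else 0) := by
    intro c
    rw [← Equiv.sum_comp (Equiv.mulRight (lift (Pi.single k (c - a))))
      (fun g : Gp => if g.q k = c then (1 : ℂ) else 0)]
    refine Finset.sum_congr rfl fun g _ => ?_
    have h2 : (Equiv.mulRight (lift (Pi.single k (c - a))) g).q k = g.q k + (c - a) := by
      change (g.q + (Pi.single k (c - a) : Q3)) k = _
      rw [Pi.add_apply, Pi.single_eq_same]
    rw [h2]
    by_cases h3 : g.q k = a
    · rw [if_pos h3, if_pos (by rw [h3]; ring)]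
    · rw [if_neg h3, if_neg fun h4 => h3 (by linear_combination h4)]
  have h2 : ∑ c : ZMod 3, ∑ g : Gp, (if g.q k = c then (1 : ℂ) else 0) = 729 := by
    rw [Finset.sum_comm, ← inn_card]
    refine Finset.sum_congr rfl fun g _ => ?_
    rw [Finset.sum_ite_eq, if_pos (Finset.mem_univ _)]
  rw [Finset.sum_congr rfl fun c _ => h1 c, Finset.sum_const, Finset.card_univ, ZMod.card,
    nsmul_eq_mul] at h2
  push_cast at h2
  linear_combination h2 / 3

private theorem chE_single (i j : Fin 3) (g : Gp) :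
    chE i (g * lift (Pi.single j 1)) = chE i g * if i = j then zt else 1 := by
  rw [chE_mul]
  congr 1
  change zt ^ ((Pi.single j 1 : Q3) i).val = _
  by_cases h : i = j
  · subst h
    rw [Pi.single_eq_same, if_pos rfl]
    exact pow_one _
  · rw [Pi.single_eq_of_ne h, if_neg h, ZMod.val_zero, pow_zero]

private theorem chE_inv (i : Fin 3) (g : Gp) : conj (chE i g⁻¹) = chE i g := by
  have h1 : chE i g⁻¹ * chE i g = 1 := by
    rw [← chE_mul, inv_mul_cancel]
    change zt ^ ((0 : Q3) i).val = 1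
    rw [Pi.zero_apply, ZMod.val_zero, pow_zero]
  have h2 := inn_mul_conj (norm_chE i g⁻¹)
  have h3 : chE i g⁻¹ ≠ 0 := fun h => by
    rw [h, zero_mul] at h1
    exact zero_ne_one h1
  exact mul_left_cancel₀ h3 (h2.trans h1.symm)

theorem inner_bV (i₀ : I) (i j : Fin 3) : inner ℂ (bV i₀ i) (bV i₀ j) = if i = j then (1 : ℂ) else 0 := by
  classical
  rw [inn_eq, Finset.sum_eq_single i₀]
  · have h1 : ∀ g : Gp, bV i₀ j (i₀, g) * conj (bV i₀ i (i₀, g)) =
        conj (chE j g) * chE i g / 729 := by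
      intro g
      rw [bV_at, bV_at, if_pos rfl, if_pos rfl, map_div₀, Complex.conj_conj]
      have h2 : conj (27 : ℂ) = 27 := Complex.conj_ofNat 27
      rw [h2]
      ring
    rw [Finset.sum_congr rfl fun g _ => h1 g]
    by_cases hij : i = j
    · subst hij
      rw [if_pos rfl]
      have h2 : ∀ g : Gp, conj (chE i g) * chE i g / 729 = (1 / 729 : ℂ) * 1 := by
        intro g
        rw [mul_comm, inn_mul_conj (norm_chE i g)]
        ring
      rw [Finset.sum_congr rfl fun g _ => h2 g, ← Finset.mul_sum, inn_card]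
      norm_num
    · rw [if_neg hij]
      refine inn_zero _ (lift (Pi.single j 1)) inn_conj_ne_one fun g => ?_
      rw [chE_single, chE_single, if_pos rfl, if_neg hij, map_mul]
      ring
  · intro k _ hk
    refine Finset.sum_eq_zero fun g _ => ?_
    rw [bV_at, if_neg hk, zero_mul]
  · intro h
    exact absurd (Finset.mem_univ _) h

theorem inner_bA (i₀ : I) (i j : Fin 3) :
    inner ℂ (bA J i₀ i) (bA J i₀ j) = if i = j then (1 : ℂ) else 0 := by
  rw [← inner_bV i₀ i j, inn_eq2, inn_eq]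
  have h1 : (∑ b : J, ∑ g : Gp, bA J i₀ j (Sum.inr b, g) * conj (bA J i₀ i (Sum.inr b, g))) = 0 :=
    Finset.sum_eq_zero fun b _ => Finset.sum_eq_zero fun g _ => by
      rw [bA, ext_inr, zero_mul]
  rw [h1, add_zero]
  refine Finset.sum_congr rfl fun a _ => Finset.sum_congr rfl fun g _ => ?_
  rw [bA, bA, ext_inl, ext_inl]

theorem inner_bA_ext (i₀ : I) (i : Fin 3) (v : Rg Gp I) :
    inner ℂ (bA J i₀ i) (ext Sum.inl v) = zz i₀ i v := by
  unfold zz
  rw [inn_eq2, inn_eq]
  have h1 : (∑ b : J, ∑ g : Gp, (ext Sum.inl v : Rg Gp (I ⊕ J)) (Sum.inr b, g) *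
      conj (bA J i₀ i (Sum.inr b, g))) = 0 :=
    Finset.sum_eq_zero fun b _ => Finset.sum_eq_zero fun g _ => by
      rw [ext_inr, zero_mul]
  rw [h1, add_zero]
  refine Finset.sum_congr rfl fun a _ => Finset.sum_congr rfl fun g _ => ?_
  rw [bA, ext_inl, ext_inl]

theorem inner_eU {u : Fin 3 → J} (hu : Function.Injective u) (i j : Fin 3) :
    inner ℂ (eU I u i) (eU I u j) = if i = j then (1 : ℂ) else 0 := by
  classical
  rw [inn_eq2]
  have e1 : (∑ x : I, ∑ g : Gp, eU I u j (Sum.inl x, g) * conj (eU I u i (Sum.inl x, g))) = 0 :=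
    Finset.sum_eq_zero fun x _ => Finset.sum_eq_zero fun g _ => by rw [eU_inl, zero_mul]
  rw [e1, zero_add]
  by_cases hij : i = j
  · subst hij
    rw [if_pos rfl, Finset.sum_eq_single (u i)]
    · have h2 : ∀ g : Gp, eU I u i (Sum.inr (u i), g) * conj (eU I u i (Sum.inr (u i), g)) =
          (1 / 729 : ℂ) * 1 := by
        intro g
        rw [eU_inr, if_pos rfl, map_div₀, map_one]
        have h2 : conj (27 : ℂ) = 27 := Complex.conj_ofNat 27
        rw [h2]
        norm_num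
      rw [Finset.sum_congr rfl fun g _ => h2 g, ← Finset.mul_sum, inn_card]
      norm_num
    · intro x _ hx
      refine Finset.sum_eq_zero fun g _ => ?_
      rw [eU_inr, if_neg hx, zero_mul]
    · intro h
      exact absurd (Finset.mem_univ _) h
  · rw [if_neg hij]
    refine Finset.sum_eq_zero fun x _ => Finset.sum_eq_zero fun g _ => ?_
    rw [eU_inr, eU_inr]
    by_cases h1 : x = u j
    · have h2 : ¬ x = u i := fun h3 => hij (hu (h3.symm.trans h1))
      rw [if_neg h2, map_zero, mul_zero]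
    · rw [if_neg h1, zero_mul]

theorem inner_EE {u : Fin 3 → J} (hu : Function.Injective u) (i j : Fin 3) (a b : ZMod 3) :
    inner ℂ (EE I u i a) (EE I u j b) = if i = j ∧ a = b then (243 : ℂ) else 0 := by
  classical
  rw [inn_eq2]
  have e1 : (∑ x : I, ∑ g : Gp, EE I u j b (Sum.inl x, g) * conj (EE I u i a (Sum.inl x, g))) = 0 :=
    Finset.sum_eq_zero fun x _ => Finset.sum_eq_zero fun g _ => by rw [EE_inl, zero_mul]
  rw [e1, zero_add]
  by_cases hij : i = j ∧ a = b
  · obtain ⟨rfl, rfl⟩ := hij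
    rw [if_pos ⟨rfl, rfl⟩, Finset.sum_eq_single (u i), ← inn_cnt (i + 2) a]
    · refine Finset.sum_congr rfl fun g _ => ?_
      rw [EE_inr]
      by_cases hg : g.q (i + 2) = a
      · rw [if_pos ⟨rfl, hg⟩, if_pos hg, mul_comm, Complex.conj_conj,
          inn_mul_conj (inn_zt_pow _)]
      · rw [if_neg (fun h => hg h.2), if_neg hg, zero_mul]
    · intro x _ hx
      refine Finset.sum_eq_zero fun g _ => ?_
      rw [EE_inr, if_neg (fun h => hx h.1), zero_mul]
    · intro h
      exact absurd (Finset.mem_univ _) h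
  · rw [if_neg hij]
    refine Finset.sum_eq_zero fun x _ => Finset.sum_eq_zero fun g _ => ?_
    rw [EE_inr, EE_inr]
    by_cases h1 : x = u j ∧ g.q (j + 2) = b
    · have h2 : ¬ (x = u i ∧ g.q (i + 2) = a) := by
        rintro ⟨h3, h4⟩
        have h5 : i = j := hu (h3.symm.trans h1.1)
        subst h5
        exact hij ⟨rfl, h4.symm.trans h1.2⟩
      rw [if_neg h2, map_zero, mul_zero]
    · rw [if_neg h1, zero_mul]

theorem inner_bA_eU (i₀ : I) (u : Fin 3 → J) (i j : Fin 3) :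
    inner ℂ (bA J i₀ i) (eU I u j) = (0 : ℂ) := by
  rw [inn_eq2]
  have h1 : (∑ x : I, ∑ g : Gp, eU I u j (Sum.inl x, g) * conj (bA J i₀ i (Sum.inl x, g))) = 0 :=
    Finset.sum_eq_zero fun x _ => Finset.sum_eq_zero fun g _ => by rw [eU_inl, zero_mul]
  have h2 : (∑ x : J, ∑ g : Gp, eU I u j (Sum.inr x, g) * conj (bA J i₀ i (Sum.inr x, g))) = 0 :=
    Finset.sum_eq_zero fun x _ => Finset.sum_eq_zero fun g _ => by
      rw [bA, ext_inr, map_zero, mul_zero]
  rw [h1, h2, add_zero]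

theorem inner_bA_EE (i₀ : I) (u : Fin 3 → J) (i j : Fin 3) (a : ZMod 3) :
    inner ℂ (bA J i₀ i) (EE I u j a) = (0 : ℂ) := by
  rw [inn_eq2]
  have h1 : (∑ x : I, ∑ g : Gp, EE I u j a (Sum.inl x, g) * conj (bA J i₀ i (Sum.inl x, g))) = 0 :=
    Finset.sum_eq_zero fun x _ => Finset.sum_eq_zero fun g _ => by rw [EE_inl, zero_mul]
  have h2 : (∑ x : J, ∑ g : Gp, EE I u j a (Sum.inr x, g) * conj (bA J i₀ i (Sum.inr x, g))) = 0 :=
    Finset.sum_eq_zero fun x _ => Finset.sum_eq_zero fun g _ => by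
      rw [bA, ext_inr, map_zero, mul_zero]
  rw [h1, h2, add_zero]

theorem inner_eU_EE {u : Fin 3 → J} (hu : Function.Injective u) (i j : Fin 3) (a : ZMod 3) :
    inner ℂ (eU I u i) (EE I u j a) = (0 : ℂ) := by
  classical
  rw [inn_eq2]
  have h1 : (∑ x : I, ∑ g : Gp, EE I u j a (Sum.inl x, g) * conj (eU I u i (Sum.inl x, g))) = 0 :=
    Finset.sum_eq_zero fun x _ => Finset.sum_eq_zero fun g _ => by rw [EE_inl, zero_mul]
  rw [h1, zero_add]
  refine Finset.sum_eq_zero fun x _ => ?_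
  by_cases hx : x = u j
  · refine inn_zero _ (cen (Pi.single j 1)) inn_conj_ne_one fun g => ?_
    rw [EE_inr, EE_inr, eU_inr, eU_inr]
    have e1 : (g * cen (Pi.single j 1)).q = g.q := by
      change g.q + 0 = g.q
      rw [add_zero]
    have e2 : (g * cen (Pi.single j 1)).n j = g.n j + 1 := by
      change (g.n + (Pi.single j 1 : Q3) + beta g.q 0) j = _
      rw [Pi.add_apply, Pi.add_apply, Pi.single_eq_same]
      simp [beta]
    rw [e1, e2]
    by_cases h2 : x = u j ∧ g.q (j + 2) = a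
    · rw [if_pos h2, if_pos h2, zt_pow_add]
      have e3 : zt ^ (1 : ZMod 3).val = zt := pow_one _
      rw [e3, map_mul]
      ring
    · rw [if_neg h2, if_neg h2]
      ring
  · refine Finset.sum_eq_zero fun g _ => ?_
    rw [EE_inr, if_neg (fun h => hx h.1), zero_mul]

theorem blk_inl_ext (v : Rg Gp I) :
    blk (Set.range (Sum.inl : I → I ⊕ J)) (ext Sum.inl v) = ext Sum.inl v := by
  ext ⟨k, g⟩
  rcases k with k | k
  · exact blk_apply_mem _ (Set.mem_range_self k)
  · rw [blk_apply_not_mem _ (by simp), ext_inr]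

theorem blk_inl_eU (u : Fin 3 → J) (i : Fin 3) :
    blk (Set.range (Sum.inl : I → I ⊕ J)) (eU I u i) = 0 := by
  ext ⟨k, g⟩
  rcases k with k | k
  · rw [blk_apply_mem _ (Set.mem_range_self k), eU_inl]
    rfl
  · rw [blk_apply_not_mem _ (by simp)]
    rfl

theorem blk_inl_EE (u : Fin 3 → J) (i : Fin 3) (a : ZMod 3) :
    blk (Set.range (Sum.inl : I → I ⊕ J)) (EE I u i a) = 0 := by
  ext ⟨k, g⟩
  rcases k with k | k
  · rw [blk_apply_mem _ (Set.mem_range_self k), EE_inl]
    rfl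
  · rw [blk_apply_not_mem _ (by simp)]
    rfl

theorem act_bV (i₀ : I) (i : Fin 3) (g : Gp) : act g (bV i₀ i) = chE i g • bV i₀ i := by
  classical
  ext ⟨k, h⟩
  rw [act_apply, PiLp.smul_apply, smul_eq_mul]
  change bV i₀ i (k, g⁻¹ * h) = _
  rw [bV_at, bV_at]
  by_cases hk : k = i₀
  · rw [if_pos hk, if_pos hk, chE_mul, map_mul, chE_inv]
    ring
  · rw [if_neg hk, if_neg hk, mul_zero]

theorem act_bA (i₀ : I) (i : Fin 3) (g : Gp) : act g (bA J i₀ i) = chE i g • bA J i₀ i := by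
  rw [bA, act_ext, act_bV, map_smul]

theorem act_eU (u : Fin 3 → J) (i : Fin 3) (g : Gp) : act g (eU I u i) = eU I u i := by
  ext ⟨k, h⟩
  rfl

theorem act_EE (u : Fin 3 → J) (i : Fin 3) (a : ZMod 3) (g : Gp) :
    act g (EE I u i a) = zt ^ (g.n i + g.q (i + 1) * a).val • EE I u i (a + g.q (i + 2)) := by
  classical
  ext ⟨k, h⟩
  rw [act_apply, PiLp.smul_apply, smul_eq_mul]
  change EE I u i a (k, g⁻¹ * h) = _
  rcases k with k | k
  · rw [EE_inl, EE_inl, mul_zero]
  · rw [EE_inr, EE_inr]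
    have e1 : (g⁻¹ * h).q (i + 2) = -g.q (i + 2) + h.q (i + 2) := rfl
    have e2 : (g⁻¹ * h).n i = (-g.n i + g.q (i + 1) * g.q (i + 2)) + h.n i +
        (-g.q (i + 1)) * h.q (i + 2) := rfl
    by_cases h1 : k = u i ∧ h.q (i + 2) = a + g.q (i + 2)
    · have h2 : k = u i ∧ (g⁻¹ * h).q (i + 2) = a := by
        refine ⟨h1.1, ?_⟩
        rw [e1, h1.2]
        ring
      rw [if_pos h1, if_pos h2, e2, h1.2]
      have e3 : (-g.n i + g.q (i + 1) * g.q (i + 2)) + h.n i +
          (-g.q (i + 1)) * (a + g.q (i + 2)) = h.n i + -(g.n i + g.q (i + 1) * a) := by ring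
      rw [e3, zt_pow_add, map_mul, inn_conj (-(g.n i + g.q (i + 1) * a)), neg_neg, mul_comm]
    · have h2 : ¬ (k = u i ∧ (g⁻¹ * h).q (i + 2) = a) := by
        rintro ⟨h3, h4⟩
        refine h1 ⟨h3, ?_⟩
        rw [e1] at h4
        linear_combination h4
      rw [if_neg h1, if_neg h2, mul_zero]

theorem zz_act (i₀ : I) (i : Fin 3) (g : Gp) (v : Rg Gp I) :
    zz i₀ i (act g v) = chE i g * zz i₀ i v := by
  unfold zz
  have h1 : bV i₀ i = act g (act g⁻¹ (bV i₀ i)) := by
    rw [← act_mul, mul_inv_cancel, act_one]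
  conv_lhs => rw [h1]
  rw [LinearIsometryEquiv.inner_map_map, act_bV, inner_smul_left, chE_inv]

end EMU
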