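import Pool.Agent.Lib.EMU.E.Inner
import Pool.Agent.Lib.EMU.E.Circ

/-!
# MP_9aab3b_gt, module E.PTaut: the values of the element are points of the tautological bundle

PROOF. `exists_line`: from `exists_phase`, `Φ`; `w = (243 NN m)^(-1/2) ∑ a, Φ a • EE u i a`: `‖w‖^2 = ∑ ‖Φ a‖^2 / NN m = 1` (`inner_EE`) and
`PLn I u i m μ = rk w w` (expand: `rk` is linear in the first and conjugate linear in the second argument).
`Pm_symm`, `Pm_idem`: `Pm = blk - ∑ rk b_i b_i + ∑ rk e_i e_i + ∑ rk w_i w_i` with orthonormal `e_i, w_i` orthogonal to the image of `blk`, and `b_i`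
orthonormal in the image of `blk` (`E/Inner`, `w_i` in the span of the `EE u i a`; `rk a b (x) = ⟪b, x⟫ • a`; `blk` is symmetric and idempotent).
`isTaut_elt`: rank: the range of `Pm` has dimension `729 |I| - 3 + 3 + 3`. Use the trace: the rank of an idempotent is its trace
(`LinearMap.IsProj.trace`, `LinearMap.IsIdempotentElem`; search Mathlib for `trace_eq_finrank_range`-like lemmas), the trace of `rk b b` is `⟪b, b⟫ = 1`
(`LinearMap.trace_smulRight`-like or matrix computation) and the trace of `blk (range inl)` is `|I| * 729`. Alternative: dimension counting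
with orthogonal sums. `Pm (um …) = um …`: `blk (ext inl v) = ext inl v`, `⟪bA i, ext inl v⟫ = zz i v`, so `(blk - ∑ rk b b)(ext inl v - ∑ z b) = ext inl v - ∑ z b`, and
`rk e_i e_i` fixes `e_i`; the other terms vanish.
`norm_um`: Pythagoras: `‖um‖^2 = ‖v‖^2 - ∑ |z_i|^2 + ∑ (log^2 |z_i| + t_i^2)`.
-/

set_option autoImplicit false

open scoped Topology OnePoint ComplexConjugate

namespace EMU

variable {I J : Type} [Fintype I] [Fintype J]

section abs

variable {E : Type} [NormedAddCommGroup E] [InnerProductSpace ℂ E]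

private theorem rk_apply (a b v : E) : rk a b v = (inner ℂ b v : ℂ) • a := rfl

private theorem inner_sum3 {e : Fin 3 → E} (he : ∀ i j, inner ℂ (e i) (e j) = if i = j then (1 : ℂ) else 0)
    (c : Fin 3 → ℂ) (i : Fin 3) : inner ℂ (e i) (∑ j, c j • e j) = c i := by
  rw [inner_sum]
  simp [inner_smul_right, he]

private theorem inner_sum0 {e b : Fin 3 → E} (he : ∀ i j, inner ℂ (b i) (e j) = (0 : ℂ))
    (c : Fin 3 → ℂ) (i : Fin 3) : inner ℂ (b i) (∑ j, c j • e j) = (0 : ℂ) := by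
  rw [inner_sum]
  simp [inner_smul_right, he]

private theorem norm_sum3 {e : Fin 3 → E} (he : ∀ i j, inner ℂ (e i) (e j) = if i = j then (1 : ℂ) else 0)
    (c : Fin 3 → ℂ) : ‖∑ j, c j • e j‖ ^ 2 = ∑ j, ‖c j‖ ^ 2 := by
  have h : inner ℂ (∑ j, c j • e j) (∑ j, c j • e j) = ((∑ j, ‖c j‖ ^ 2 : ℝ) : ℂ) := by
    rw [sum_inner]
    simp only [inner_smul_left, inner_sum3 he]
    push_cast
    refine Finset.sum_congr rfl fun j _ => ?_
    rw [← Complex.conj_mul']
  rw [@norm_sq_eq_re_inner ℂ, h]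
  exact Complex.ofReal_re _

/-- the projection -/
private noncomputable def PA (B : E →L[ℂ] E) (b e w : Fin 3 → E) : E →L[ℂ] E :=
  B - ∑ i, rk (b i) (b i) + ∑ i, rk (e i) (e i) + ∑ i, rk (w i) (w i)

private theorem PA_apply (B : E →L[ℂ] E) (b e w : Fin 3 → E) (v : E) :
    PA B b e w v = B v - ∑ i, (inner ℂ (b i) v : ℂ) • b i + ∑ i, (inner ℂ (e i) v : ℂ) • e i
      + ∑ i, (inner ℂ (w i) v : ℂ) • w i := by
  simp only [PA, add_apply, sub_apply,
    sum_apply, rk_apply]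

private theorem swap0 {x y : E} (h : inner ℂ x y = (0 : ℂ)) : inner ℂ y x = (0 : ℂ) := by
  rw [← inner_conj_symm, h, map_zero]

private theorem abs_taut [FiniteDimensional ℂ E] {r : ℕ} (B : E →L[ℂ] E) {b e w : Fin 3 → E}
    (hB : ∀ v, B (B v) = B v) (hBs : ∀ v w, inner ℂ (B v) w = inner ℂ v (B w))
    (hBr : Module.finrank ℂ (LinearMap.range (B : E →ₗ[ℂ] E)) = r)
    (hbb : ∀ i j, inner ℂ (b i) (b j) = if i = j then (1 : ℂ) else 0)
    (hee : ∀ i j, inner ℂ (e i) (e j) = if i = j then (1 : ℂ) else 0)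
    (hww : ∀ i j, inner ℂ (w i) (w j) = if i = j then (1 : ℂ) else 0)
    (hbe : ∀ i j, inner ℂ (b i) (e j) = (0 : ℂ)) (hbw : ∀ i j, inner ℂ (b i) (w j) = (0 : ℂ))
    (hew : ∀ i j, inner ℂ (e i) (w j) = (0 : ℂ))
    (hBb : ∀ i, B (b i) = b i) (hBe : ∀ i, B (e i) = 0) (hBw : ∀ i, B (w i) = 0) :
    (∀ v, PA B b e w (PA B b e w v) = PA B b e w v) ∧
      (∀ v u, inner ℂ (PA B b e w v) u = inner ℂ v (PA B b e w u)) ∧
      Module.finrank ℂ (LinearMap.range (PA B b e w : E →ₗ[ℂ] E)) = r + 3 ∧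
      (∀ i, PA B b e w (b i) = 0) ∧ (∀ i, PA B b e w (e i) = e i) ∧
      (∀ x, B x = x → PA B b e w x = x - ∑ i, (inner ℂ (b i) x : ℂ) • b i) := by
  have heb : ∀ i j, inner ℂ (e i) (b j) = (0 : ℂ) := fun i j => swap0 (hbe j i)
  have hwb : ∀ i j, inner ℂ (w i) (b j) = (0 : ℂ) := fun i j => swap0 (hbw j i)
  have hwe : ∀ i j, inner ℂ (w i) (e j) = (0 : ℂ) := fun i j => swap0 (hew j i)
  have hPb : ∀ i, PA B b e w (b i) = 0 := by
    intro i
    rw [PA_apply]
    simp [hBb, hbb, heb, hwb]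
  have hPe : ∀ i, PA B b e w (e i) = e i := by
    intro i
    rw [PA_apply]
    simp [hBe, hbe, hee, hwe]
  have hPw : ∀ i, PA B b e w (w i) = w i := by
    intro i
    rw [PA_apply]
    simp [hBw, hbw, hew, hww]
  have hs : ∀ v u, inner ℂ (PA B b e w v) u = inner ℂ v (PA B b e w u) := by
    intro v u
    rw [PA_apply, PA_apply]
    simp only [inner_add_left, inner_add_right, inner_sub_left, inner_sub_right, sum_inner,
      inner_sum, inner_smul_left, inner_smul_right, hBs]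
    have h1 : ∀ x y z : E, (starRingEnd ℂ) (inner ℂ x y) * inner ℂ x z =
        inner ℂ x z * inner ℂ y x := by
      intro x y z
      rw [inner_conj_symm, mul_comm]
    simp only [h1]
  have hBP : ∀ v, B (PA B b e w v) = B v - ∑ i, (inner ℂ (b i) v : ℂ) • b i := by
    intro v
    rw [PA_apply]
    simp [map_sum, hB, hBb, hBe, hBw]
  have hid : ∀ v, PA B b e w (PA B b e w v) = PA B b e w v := by
    intro v
    rw [PA_apply B b e w (PA B b e w v), hBP]
    simp only [← hs, hPb, hPe, hPw, inner_zero_left, zero_smul, Finset.sum_const_zero, sub_zero]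
    rw [PA_apply]
  refine ⟨hid, hs, ?_, hPb, hPe, ?_⟩
  · have hfree := (LinearMap.IsIdempotentElem.isProj_range (PA B b e w : E →ₗ[ℂ] E)
      (LinearMap.ext fun v => hid v)).trace
    have hfreeB := (LinearMap.IsIdempotentElem.isProj_range (B : E →ₗ[ℂ] E)
      (LinearMap.ext fun v => hB v)).trace
    have hrk : ∀ x : E, LinearMap.trace ℂ E ((rk x x : E →L[ℂ] E) : E →ₗ[ℂ] E) = inner ℂ x x :=
      fun x => LinearMap.trace_smulRight (innerSL ℂ x : E →ₗ[ℂ] ℂ) x
    have hco : ((PA B b e w : E →L[ℂ] E) : E →ₗ[ℂ] E) = (B : E →ₗ[ℂ] E)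
        - ∑ i, ((rk (b i) (b i) : E →L[ℂ] E) : E →ₗ[ℂ] E)
        + ∑ i, ((rk (e i) (e i) : E →L[ℂ] E) : E →ₗ[ℂ] E)
        + ∑ i, ((rk (w i) (w i) : E →L[ℂ] E) : E →ₗ[ℂ] E) := by
      apply LinearMap.ext
      intro v
      simp [PA, LinearMap.sum_apply]
    rw [hco, map_add, map_add, map_sub, map_sum, map_sum, map_sum] at hfree
    simp only [hrk, hbb, hee, hww, if_true, Finset.sum_const, Finset.card_univ, Fintype.card_fin]
      at hfree
    rw [hfreeB, hBr, ← hco] at hfree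
    have h3 : ((r + 3 : ℕ) : ℂ) =
        (Module.finrank ℂ (LinearMap.range (PA B b e w : E →ₗ[ℂ] E)) : ℂ) := by
      rw [← hfree]
      push_cast
      simp
    exact_mod_cast h3.symm
  · intro x hx
    rw [PA_apply, hx]
    have h1 : ∀ i, inner ℂ (e i) x = (0 : ℂ) := by
      intro i
      rw [← hx, ← hBs, hBe, inner_zero_left]
    have h2 : ∀ i, inner ℂ (w i) x = (0 : ℂ) := by
      intro i
      rw [← hx, ← hBs, hBw, inner_zero_left]
    simp [h1, h2]

end abs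

private theorem norm_ext_inl (v : Rg Gp I) :
    ‖(ext Sum.inl v : Rg Gp (I ⊕ J))‖ ^ 2 = ‖v‖ ^ 2 := by
  rw [EuclideanSpace.norm_sq_eq, EuclideanSpace.norm_sq_eq, Fintype.sum_prod_type,
    Fintype.sum_prod_type, Fintype.sum_sum_type]
  have h1 : ∀ (i : I) (g : Gp), (ext Sum.inl v : Rg Gp (I ⊕ J)) (Sum.inl i, g) = v (i, g) :=
    fun i g => ext_apply Sum.inl_injective v i g
  have h2 : ∀ (j : J) (g : Gp), (ext Sum.inl v : Rg Gp (I ⊕ J)) (Sum.inr j, g) = 0 :=
    fun j g => ext_apply_not v (by rintro ⟨a, ha⟩; exact absurd ha (by simp)) g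
  simp [h1, h2]

private theorem blk_taut :
    IsTaut (Fintype.card I * 729) (blk (Set.range (Sum.inl : I → I ⊕ J)), (0 : Rg Gp (I ⊕ J))) := by
  have h0 : IsTaut (E := Rg Gp (Fin 0)) 0 (0, 0) := by
    refine ⟨fun v => rfl, fun v w => by simp, ?_, rfl⟩
    exact Module.finrank_zero_of_subsingleton
  have h1 := isTaut_stab (G := Gp) (A := Fin 0) (A' := I ⊕ J) (φ := fun x => x.elim0)
    (fun x => x.elim0) (B := Set.range (Sum.inl : I → I ⊕ J)) (fun x => x.elim0) h0 0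
    (m' := Fintype.card I * 729) (by
      rw [zero_add, Gp.card_eq]
      congr 1
      rw [Nat.card_range_of_injective Sum.inl_injective, Nat.card_eq_fintype_card])
  have h2 : stabP (fun x : Fin 0 => (x.elim0 : I ⊕ J)) (Set.range (Sum.inl : I → I ⊕ J))
      (0 : Rg Gp (Fin 0) →L[ℂ] Rg Gp (Fin 0)) = blk (Set.range (Sum.inl : I → I ⊕ J)) := by
    simp [stabP]
  simp only [map_zero, add_zero] at h1
  rw [h2] at h1
  exact h1

theorem exists_line {u : Fin 3 → J} (hu : Function.Injective u) (i : Fin 3) {m μ : ℂ}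
    (hm : ‖m‖ = 1) (hμ : ‖μ‖ = 1) :
    ∃ (w : Rg Gp (I ⊕ J)) (c : ZMod 3 → ℂ), w = ∑ a, c a • EE I u i a ∧ ‖w‖ = 1 ∧
      PLn I u i m μ = rk w w := by
  obtain ⟨Φ, hΦ, hn⟩ := exists_phase hm hμ
  have hN := NN_pos hm
  have hN' : (0 : ℝ) < 243 * NN m := by positivity
  set s : ℝ := (Real.sqrt (243 * NN m))⁻¹ with hs
  have hs2 : s ^ 2 * (243 * NN m) = 1 := by
    rw [hs, inv_pow, Real.sq_sqrt hN'.le, inv_mul_cancel₀ hN'.ne']
  have hs2' : (s : ℂ) ^ 2 = 1 / (243 * (NN m : ℂ)) := by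
    have h243 : (243 * (NN m : ℂ)) ≠ 0 := by
      have : ((243 * NN m : ℝ) : ℂ) ≠ 0 := by exact_mod_cast hN'.ne'
      simpa using this
    rw [eq_div_iff h243]
    exact_mod_cast hs2
  refine ⟨∑ a, (Φ a * s) • EE I u i a, fun a => Φ a * s, rfl, ?_, ?_⟩
  · have h1 : inner ℂ (∑ a, (Φ a * s) • EE I u i a) (∑ a, (Φ a * s) • EE I u i a) = (1 : ℂ) := by
      rw [sum_inner]
      simp only [inner_smul_left, inner_sum, inner_smul_right, inner_EE hu, true_and]
      simp only [mul_ite, mul_zero, Finset.sum_ite_eq, Finset.mem_univ, if_true]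
      have h2 : ∀ a, Φ a * s * ((starRingEnd ℂ) (Φ a * s) * 243) =
          ((cc a m ^ 2 * (s ^ 2 * 243) : ℝ) : ℂ) := by
        intro a
        rw [map_mul, Complex.conj_ofReal]
        have h3 : (starRingEnd ℂ) (Φ a) * Φ a = ((cc a m : ℝ) : ℂ) ^ 2 := by
          rw [Complex.conj_mul', hn]
        calc Φ a * s * ((starRingEnd ℂ) (Φ a) * s * 243)
            = ((starRingEnd ℂ) (Φ a) * Φ a) * (s ^ 2 * 243) := by ring
          _ = _ := by rw [h3]; push_cast; ring
      simp only [h2]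
      rw [← Complex.ofReal_sum, ← Finset.sum_mul]
      have h4 : (∑ a, cc a m ^ 2) * (s ^ 2 * 243) = 1 := by
        change NN m * (s ^ 2 * 243) = 1
        rw [← hs2]; ring
      rw [h4, Complex.ofReal_one]
    have h2 : ‖∑ a, (Φ a * s) • EE I u i a‖ ^ 2 = 1 := by
      rw [@norm_sq_eq_re_inner ℂ, h1]
      simp
    nlinarith [norm_nonneg (∑ a, (Φ a * s) • EE I u i a)]
  · apply ContinuousLinearMap.ext
    intro v
    rw [rk_apply]
    simp only [PLn, sum_apply, smul_apply, rk_apply,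
      sum_inner, inner_smul_left, Finset.smul_sum, smul_smul]
    refine Finset.sum_congr rfl fun a _ => ?_
    rw [← Finset.sum_smul, Finset.sum_mul]
    congr 1
    refine Finset.sum_congr rfl fun b _ => ?_
    rw [hΦ, map_mul, Complex.conj_ofReal]
    calc Φ a * (starRingEnd ℂ) (Φ b) / (243 * (NN m : ℂ)) * inner ℂ (EE I u i b) v
        = Φ a * (starRingEnd ℂ) (Φ b) * (1 / (243 * (NN m : ℂ))) * inner ℂ (EE I u i b) v := by ring
      _ = _ := by rw [← hs2']; ring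

theorem isTaut_elt (i₀ : I) {u : Fin 3 → J} (hu : Function.Injective u) (v : Rg Gp I)
    (t : EuclideanSpace ℝ (Fin 3)) (hz : ∀ i, zz i₀ i v ≠ 0) {m : ℕ}
    (hm : m = Fintype.card I * 729 + 3) :
    IsTaut m (Pm i₀ u (fun i => zz i₀ i v), um i₀ u v t) := by
  subst hm
  have hph : ∀ i, ‖ph (zz i₀ i v)‖ = 1 := by
    intro i
    rw [ph, norm_div, Complex.norm_real, norm_norm, div_self (norm_ne_zero_iff.2 (hz i))]
  choose w c hw hw1 hwP using fun i => exists_line (I := I) hu i (hph (i + 2)) (hph (i + 1))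
  have hT := blk_taut (I := I) (J := J)
  have hPm : Pm i₀ u (fun i => zz i₀ i v) =
      PA (blk (Set.range (Sum.inl : I → I ⊕ J))) (fun i => bA J i₀ i) (fun i => eU I u i) w := by
    rw [Pm, PA]
    congr 1
    exact Finset.sum_congr rfl fun i _ => hwP i
  have hww : ∀ i j, inner ℂ (w i) (w j) = if i = j then (1 : ℂ) else 0 := by
    intro i j
    by_cases hij : i = j
    · subst hij
      rw [if_pos rfl, inner_self_eq_norm_sq_to_K, hw1]
      simp
    · rw [if_neg hij, hw i, hw j, sum_inner]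
      simp [inner_smul_left, inner_sum, inner_smul_right, inner_EE hu, hij]
  have hbw : ∀ i j, inner ℂ (bA J i₀ i) (w j) = (0 : ℂ) := by
    intro i j
    rw [hw j, inner_sum]
    simp [inner_smul_right, inner_bA_EE]
  have hew : ∀ i j, inner ℂ (eU I u i) (w j) = (0 : ℂ) := by
    intro i j
    rw [hw j, inner_sum]
    simp [inner_smul_right, inner_eU_EE hu]
  have hBw : ∀ i, blk (Set.range (Sum.inl : I → I ⊕ J)) (w i) = 0 := by
    intro i
    rw [hw i, map_sum]
    simp [map_smul, blk_inl_EE]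
  have hAll := abs_taut (E := Rg Gp (I ⊕ J)) (r := Fintype.card I * 729)
    (b := fun i => bA J i₀ i) (e := fun i => eU I u i) (w := w)
    (blk (Set.range (Sum.inl : I → I ⊕ J))) hT.idem
    hT.symm hT.rank (inner_bA i₀) (inner_eU hu) hww (inner_bA_eU i₀ u) hbw hew
    (fun i => blk_inl_ext (bV i₀ i)) (fun i => blk_inl_eU u i) hBw
  obtain ⟨h1, h2, h3, h4, h5, h6⟩ := hAll
  rw [hPm]
  refine ⟨h1, h2, h3, ?_⟩
  change PA (blk (Set.range (Sum.inl : I → I ⊕ J))) (fun i => bA J i₀ i) (fun i => eU I u i) w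
    (um i₀ u v t) = um i₀ u v t
  rw [um, map_add, map_sub, map_sum, map_sum, h6 _ (blk_inl_ext v)]
  simp only [map_smul, h4, h5, smul_zero, Finset.sum_const_zero, sub_zero, inner_bA_ext]

theorem norm_um (i₀ : I) {u : Fin 3 → J} (hu : Function.Injective u) (v : Rg Gp I)
    (t : EuclideanSpace ℝ (Fin 3)) :
    ‖um i₀ u v t‖ ^ 2 = ‖v‖ ^ 2 - ∑ i, ‖zz i₀ i v‖ ^ 2 +
      ∑ i, ((Real.log ‖zz i₀ i v‖) ^ 2 + (t i) ^ 2) := by
  set x : Rg Gp (I ⊕ J) := ext Sum.inl v with hx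
  set c : Fin 3 → ℂ := fun i => (Real.log ‖zz i₀ i v‖ : ℂ) + Complex.I * (t i : ℂ) with hc
  have hxe : ∀ i, inner ℂ (eU I u i) x = (0 : ℂ) := by
    intro i
    rw [hx, ← blk_inl_ext v]
    have hs : inner ℂ (blk (Set.range (Sum.inl : I → I ⊕ J)) (eU I u i)) (ext Sum.inl v) =
      inner ℂ (eU I u i) (blk (Set.range (Sum.inl : I → I ⊕ J)) (ext Sum.inl v)) :=
      (blk_taut (I := I) (J := J)).symm _ _
    rw [← hs, blk_inl_eU, inner_zero_left]
  have h1 : ‖∑ i, zz i₀ i v • bA J i₀ i‖ ^ 2 = ∑ i, ‖zz i₀ i v‖ ^ 2 :=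
    norm_sum3 (E := Rg Gp (I ⊕ J)) (e := fun i => bA J i₀ i) (inner_bA i₀) _
  have h2 : ‖∑ i, c i • eU I u i‖ ^ 2 = ∑ i, ‖c i‖ ^ 2 :=
    norm_sum3 (E := Rg Gp (I ⊕ J)) (e := fun i => eU I u i) (inner_eU hu) _
  have h3 : inner ℂ x (∑ i, zz i₀ i v • bA J i₀ i) = ((∑ i, ‖zz i₀ i v‖ ^ 2 : ℝ) : ℂ) := by
    rw [inner_sum]
    push_cast
    refine Finset.sum_congr rfl fun i _ => ?_
    rw [inner_smul_right, ← inner_conj_symm, hx, inner_bA_ext, Complex.mul_conj']
  have h4 : inner ℂ (x - ∑ i, zz i₀ i v • bA J i₀ i) (∑ i, c i • eU I u i) = (0 : ℂ) := by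
    rw [inner_sum]
    refine Finset.sum_eq_zero fun i _ => ?_
    rw [inner_smul_right, inner_sub_left, sum_inner, swap0 (hxe i)]
    simp [inner_smul_left, inner_bA_eU]
  have h5 : ∀ i, ‖c i‖ ^ 2 = (Real.log ‖zz i₀ i v‖) ^ 2 + (t i) ^ 2 := by
    intro i
    rw [← Complex.normSq_eq_norm_sq]
    simp only [hc]
    rw [mul_comm Complex.I, Complex.normSq_add_mul_I]
  have h6 : um i₀ u v t = (x - ∑ i, zz i₀ i v • bA J i₀ i) + ∑ i, c i • eU I u i := rfl
  rw [h6, @norm_add_sq ℂ, h4, @norm_sub_sq ℂ, h3, h1, h2, hx, norm_ext_inl]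
  simp only [h5, map_zero, mul_zero, add_zero]
  rw [show RCLike.re ((∑ i, ‖zz i₀ i v‖ ^ 2 : ℝ) : ℂ) = ∑ i, ‖zz i₀ i v‖ ^ 2 from
    Complex.ofReal_re _]
  ring

end EMU
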